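import Pool.Agent.X43.KR.Tow

/-!
# KLS for densities symmetric along a tower of partitions: the final forms
-/

set_option autoImplicit false

namespace Pool.Agent.X43.KR

open MeasureTheory Set Filter
open scoped ENNReal InnerProductSpace Topology
open Pool.Agent.H212R2.KLS (mu Bdd)
open Pool.Agent.H888R2.KT (LC St tw)
open Pool.Agent.TH594.KP (V GD SC full mainc gd_smul)
open Pool.Agent.TH597.HX
open Pool.Agent.TH597.HX.Lpp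
open Pool.Agent.TH597.HX.Wr (pm pm_apply)
open Pool.Agent.TH597.HX.Tr (LPQ lpp_sc)
open Blk

theorem pi_mono {q : ℕ} {G G' : Set (V (Fin q) ≃ₗᵢ[ℝ] V (Fin q))} {D D' : ℝ} (hG : G ⊆ G')
    (hD : D ≤ D') (h : PI G D) : PI G' D' := by
  intro ρ hρ hLC s hs hmom f hf
  obtain ⟨c, hc⟩ := h ρ ⟨hρ.nonneg, hρ.meas, hρ.logc, fun g hg => hρ.inv g (hG hg)⟩ hLC s hs hmom
    f hf
  refine ⟨c, hc.trans (mul_le_mul_of_nonneg_right ?_ (integral_nonneg fun x => by positivity))⟩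
  exact mul_le_mul_of_nonneg_right hD hs.le

/-- The Poincaré inequality with the constant `K s` for the probability densities with covariance at
most `s` -/
def PV {q : ℕ} (P : Set (Equiv.Perm (Fin q))) (K : ℝ) : Prop :=
  ∀ ρ : V (Fin q) → ℝ, (∀ x, 0 ≤ ρ x) → Measurable ρ →
    (∀ x y, ∀ t : ℝ, 0 < t → t < 1 → ρ x ^ (1 - t) * ρ y ^ t ≤ ρ ((1 - t) • x + t • y)) →
    (∀ π ∈ P, ∀ x y : V (Fin q), (∀ j, y j = x (π j)) → ρ y = ρ x) →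
    (∃ R : ℝ, ∀ x, R < ‖x‖ → ρ x = 0) → mu ρ univ = 1 → ∀ s : ℝ, 0 < s →
    (∀ θ : V (Fin q), ProbabilityTheory.evariance (fun x => ⟪θ, x⟫_ℝ) (mu ρ) ≤
      ENNReal.ofReal (s * ‖θ‖ ^ 2)) →
    ∀ f : V (Fin q) → ℝ, ContDiff ℝ 1 f →
      ProbabilityTheory.variance f (mu ρ) ≤ K * s * ∫ x, ‖fderiv ℝ f x‖ ^ 2 ∂(mu ρ)

theorem pv_pi {q : ℕ} {P : Set (Equiv.Perm (Fin q))} {K : ℝ}
    (h : PV P K) : PI (pm '' P) K := by
  intro ρ hρ hLC s hs hmom f hf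
  obtain ⟨m₀, hm₀⟩ : ∃ m₀ : ℝ, m₀ = (mu ρ univ).toReal := ⟨_, rfl⟩
  have hm0 : 0 < m₀ := by
    rw [hm₀]
    exact ENNReal.toReal_pos (by simpa using hLC.ne) hLC.fin
  have hmi : 0 ≤ m₀⁻¹ := (inv_pos.2 hm0).le
  obtain ⟨ρ', hρ'⟩ : ∃ ρ' : V (Fin q) → ℝ, ρ' = fun x => m₀⁻¹ * ρ x := ⟨_, rfl⟩
  have hGD : GD (pm '' P) ρ' := by
    rw [hρ']
    exact gd_smul hρ _ hmi
  have hmu : mu ρ' = ENNReal.ofReal m₀⁻¹ • mu ρ := by
    have h1 := Pool.Agent.H212R2.KLS.g2_mu ρ hρ.nonneg hρ.meas univ MeasurableSet.univ m₀⁻¹ hmi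
    rw [Measure.restrict_univ] at h1
    rw [hρ', ← h1]
    simp
  have hint : ∀ g : V (Fin q) → ℝ, ∫ x, g x ∂(mu ρ') = m₀⁻¹ * ∫ x, g x ∂(mu ρ) := by
    intro g
    rw [hmu, integral_smul_measure, ENNReal.toReal_ofReal hmi, smul_eq_mul]
  have hmass : mu ρ' univ = 1 := by
    rw [hmu, Measure.smul_apply, smul_eq_mul, ← ENNReal.ofReal_toReal hLC.fin, ← hm₀,
      ← ENNReal.ofReal_mul hmi, inv_mul_cancel₀ hm0.ne', ENNReal.ofReal_one]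
  have hprob : IsProbabilityMeasure (mu ρ') := ⟨hmass⟩
  have hbd : Bdd ρ' := by
    obtain ⟨R, hR⟩ := hLC.bdd
    refine ⟨R, fun x hx => ?_⟩
    rw [hρ']
    show m₀⁻¹ * ρ x = 0
    rw [hR x hx, mul_zero]
  have hball := ball_of hGD.meas hbd
  have hi : ∀ g : V (Fin q) → ℝ, Continuous g → Integrable g (mu ρ') := fun g hg =>
    Pool.Agent.H888R2.KT.G2x.intg (mu ρ') hball g hg
  have hmem : ∀ g : V (Fin q) → ℝ, Continuous g → MemLp g 2 (mu ρ') := fun g hg => by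
    refine (memLp_two_iff_integrable_sq hg.aestronglyMeasurable).2 (hi _ (hg.pow 2))
  have key := h ρ' hGD.nonneg hGD.meas hGD.logc
    (by
      intro π hπ x y hxy
      have h1 := hGD.inv _ ⟨π, hπ, rfl⟩ y
      rw [← h1]
      congr 1
      ext j
      rw [pm_apply, hxy, Equiv.apply_symm_apply])
    hbd hmass s hs
    (by
      intro θ
      have hc : Continuous fun x : V (Fin q) => ⟪θ, x⟫_ℝ := by fun_prop
      rw [← ProbabilityTheory.ofReal_variance (hmem _ hc)]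
      refine ENNReal.ofReal_le_ofReal ?_
      refine (ProbabilityTheory.variance_le_expectation_sq hc.aestronglyMeasurable).trans ?_
      have h2 := hmom θ
      rw [← hm₀] at h2
      have h3 := mul_le_mul_of_nonneg_left h2 hmi
      have h4 : m₀⁻¹ * (s * ‖θ‖ ^ 2 * m₀) = s * ‖θ‖ ^ 2 := by
        field_simp
      rw [h4] at h3
      rw [← hint] at h3
      exact h3)
    f hf
  rw [ProbabilityTheory.variance_eq_integral hf.continuous.measurable.aemeasurable, hint] at key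
  refine ⟨∫ x, f x ∂(mu ρ'), ?_⟩
  rw [hint (fun x => ‖fderiv ℝ f x‖ ^ 2)] at key
  have h5 := mul_le_mul_of_nonneg_left key hm0.le
  calc ∫ x, (f x - ∫ y, f y ∂(mu ρ')) ^ 2 ∂(mu ρ)
      = m₀ * (m₀⁻¹ * ∫ x, (f x - ∫ y, f y ∂(mu ρ')) ^ 2 ∂(mu ρ)) := by
        rw [← mul_assoc, mul_inv_cancel₀ hm0.ne', one_mul]
    _ ≤ m₀ * (K * s * (m₀⁻¹ * ∫ x, ‖fderiv ℝ f x‖ ^ 2 ∂(mu ρ))) := h5
    _ = (m₀ * m₀⁻¹) * (K * s * ∫ x, ‖fderiv ℝ f x‖ ^ 2 ∂(mu ρ)) := by ring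
    _ = _ := by rw [mul_inv_cancel₀ hm0.ne', one_mul]

namespace Tow

/-- the factor -/
noncomputable def fac (k : ℕ) (T : ℕ → ℝ) (K : ℝ) : ℝ :=
  K * ∏ j ∈ Finset.range k, (1 + T j) ^ 2

theorem fac_one {n k : ℕ} {lab : ℕ → Fin n → ℕ} {T : ℕ → ℝ} (hT : TC k lab T) {K : ℝ}
    (hK : 1 ≤ K) : 1 ≤ fac k T K := by
  refine one_le_mul_of_one_le_of_one_le hK ?_
  refine Finset.prod_induction _ (fun x : ℝ => 1 ≤ x)
    (fun a b ha hb => one_le_mul_of_one_le_of_one_le ha hb) le_rfl fun i hi => ?_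
  have := (hT i (Finset.mem_range.1 hi)).1
  exact one_le_pow₀ (by linarith)

/-- all the hypotheses -/
structure Hyp (k n : ℕ) (lab : ℕ → Fin n → ℕ) (Q : Set (Equiv.Perm (Fin n))) (T : ℕ → ℝ)
    (q : ℕ) (top : Fin n → Fin q) (K : ℝ) : Prop where
  hk : 1 ≤ k
  hn : 1 ≤ n
  tow : Tower k lab Q
  tc : TC k lab T
  surj : Function.Surjective top
  htop : ∀ x y, top x = top y ↔ lab k x = lab k y
  hK : 1 ≤ K
  kls : (q : ℝ) ≤ K ∨ PV (Ind top Q) K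

theorem sct : ∃ C : ℝ, 1 ≤ C ∧ ∀ (k n : ℕ) (lab : ℕ → Fin n → ℕ) (Q : Set (Equiv.Perm (Fin n)))
    (T : ℕ → ℝ) (q : ℕ) (top : Fin n → Fin q) (K : ℝ), Hyp k n lab Q T q top K →
    SC (pm '' Q) (C ^ (k ^ 2) * fac k T K) := by
  obtain ⟨C, hC, H⟩ := tower
  obtain ⟨C₀, hC₀, Hq⟩ := piq
  have hC0 : 0 < C := by linarith
  refine ⟨120000 * C ^ 3 * C₀, ?_, ?_⟩
  · have h1 : 1 ≤ C ^ 3 := one_le_pow₀ hC
    have h2 : 1 ≤ C ^ 3 * C₀ := one_le_mul_of_one_le_of_one_le h1 hC₀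
    nlinarith
  intro k n lab Q T q top K hyp
  have hK := hyp.hK
  have hk := hyp.hk
  have hq : 1 ≤ q := Fin.pos (top ⟨0, hyp.hn⟩)
  have hPI : PI (pm '' Ind top Q) (C₀ * K) := by
    rcases hyp.kls with h | h
    · exact pi_mono (empty_subset _) (mul_le_mul_of_nonneg_left h (by linarith)) (Hq q hq)
    · exact pi_mono subset_rfl (by nlinarith) (pv_pi h)
  have hC0K : 1 ≤ C₀ * K := one_le_mul_of_one_le_of_one_le hC₀ hK
  obtain ⟨N, hN⟩ := H k n hyp.hn lab Q T hyp.tow hyp.tc q top hyp.surj hyp.htop (C₀ * K) hC0K hPI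
  obtain ⟨F, hF⟩ : ∃ F : ℝ, F = fac k T K := ⟨_, rfl⟩
  have hF1 : 1 ≤ F := by rw [hF]; exact fac_one hyp.tc hK
  have e0 : C ^ (k ^ 2) * (C₀ * K * ∏ j ∈ Finset.range k, (1 + T j) ^ 2) =
      C ^ (k ^ 2) * (C₀ * F) := by
    rw [hF]
    unfold fac
    ring
  rw [e0] at hN
  obtain ⟨B, hB⟩ : ∃ B : ℝ, B = C ^ k := ⟨_, rfl⟩
  have hB1 : 1 ≤ B := by rw [hB]; exact one_le_pow₀ hC
  rw [← hB] at hN
  have h1 := lpp_sc hN (by positivity) (by linarith)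
  rw [← hF]
  intro ρ hρ hbd hmass s hs hmom f hf hf1
  refine (h1 ρ hρ hbd hmass s hs hmom f hf hf1).trans (mul_le_mul_of_nonneg_right ?_ hs.le)
  have e1 : B ^ 2 + 2 ≤ 3 * B ^ 2 := by
    have : 1 ≤ B ^ 2 := one_le_pow₀ hB1
    linarith
  have hC00 : 0 < C₀ := by linarith
  have e2 : 40000 * (C ^ (k ^ 2) * (C₀ * F) * (B ^ 2 + 2)) ≤
      120000 * (C ^ (k ^ 2) * B ^ 2) * C₀ * F := by
    have h2 : C ^ (k ^ 2) * (C₀ * F) * (B ^ 2 + 2) ≤ C ^ (k ^ 2) * (C₀ * F) * (3 * B ^ 2) :=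
      mul_le_mul_of_nonneg_left e1 (by positivity)
    calc 40000 * (C ^ (k ^ 2) * (C₀ * F) * (B ^ 2 + 2))
        ≤ 40000 * (C ^ (k ^ 2) * (C₀ * F) * (3 * B ^ 2)) :=
          mul_le_mul_of_nonneg_left h2 (by norm_num)
      _ = _ := by ring
  refine e2.trans (mul_le_mul_of_nonneg_right ?_ (by linarith))
  have e3 : C ^ (k ^ 2) * B ^ 2 = C ^ (k ^ 2 + k * 2) := by
    rw [hB, ← pow_mul, ← pow_add]
  rw [e3, mul_pow, mul_pow, ← pow_mul]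
  have hk2 : 1 ≤ k ^ 2 := Nat.one_le_pow _ _ hk
  have e4 : C ^ (k ^ 2 + k * 2) ≤ C ^ (3 * k ^ 2) := by
    refine pow_le_pow_right₀ hC ?_
    nlinarith
  have e5 : (120000 : ℝ) ≤ 120000 ^ (k ^ 2) := by
    calc (120000 : ℝ) = 120000 ^ 1 := (pow_one _).symm
      _ ≤ 120000 ^ (k ^ 2) := pow_le_pow_right₀ (by norm_num) hk2
  have e6 : C₀ ≤ C₀ ^ (k ^ 2) := by
    calc C₀ = C₀ ^ 1 := (pow_one _).symm
      _ ≤ C₀ ^ (k ^ 2) := pow_le_pow_right₀ hC₀ hk2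
  exact mul_le_mul (mul_le_mul e5 e4 (by positivity) (by positivity)) e6 (by positivity)
    (by positivity)

/-- the density does not change under the permutations -/
theorem gd_of {n : ℕ} {Q : Set (Equiv.Perm (Fin n))} {ρ : V (Fin n) → ℝ} (hnn : ∀ x, 0 ≤ ρ x)
    (hmeas : Measurable ρ)
    (hlc : ∀ x y, ∀ t : ℝ, 0 < t → t < 1 → ρ x ^ (1 - t) * ρ y ^ t ≤ ρ ((1 - t) • x + t • y))
    (hinv : ∀ σ ∈ Q, ∀ x y : V (Fin n), (∀ p, y p = x (σ p)) → ρ y = ρ x) :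
    GD (pm '' Q) ρ :=
  ⟨hnn, hmeas, hlc, by
    rintro g ⟨σ, hσ, rfl⟩ x
    exact (hinv σ hσ (pm σ x) x fun p => by rw [pm_apply, Equiv.symm_apply_apply]).symm⟩

/-- sets invariant under the permutations -/
theorem set_of {n : ℕ} {Q : Set (Equiv.Perm (Fin n))} {D : Set (V (Fin n))}
    (hinv : ∀ σ ∈ Q, ∀ x y : V (Fin n), (∀ p, y p = x (σ p)) → (x ∈ D ↔ y ∈ D)) :
    ∀ g ∈ pm '' Q, ∀ x, g x ∈ D ↔ x ∈ D := by
  rintro g ⟨σ, hσ, rfl⟩ x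
  exact hinv σ hσ (pm σ x) x fun p => by rw [pm_apply, Equiv.symm_apply_apply]

/-- the weak Poincare inequality, second moments, invariance under all isometries which preserve a
set `D` invariant under the permutations -/
theorem weakD : ∃ C : ℝ, 1 ≤ C ∧ ∀ (k n : ℕ) (lab : ℕ → Fin n → ℕ)
    (Q : Set (Equiv.Perm (Fin n))) (T : ℕ → ℝ) (q : ℕ) (top : Fin n → Fin q) (K : ℝ),
    Hyp k n lab Q T q top K →
    ∀ D : Set (V (Fin n)), (∀ g ∈ pm '' Q, ∀ x, g x ∈ D ↔ x ∈ D) →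
    ∀ ρ : V (Fin n) → ℝ, (∀ x, 0 ≤ ρ x) → Measurable ρ →
    (∀ x y, ∀ t : ℝ, 0 < t → t < 1 → ρ x ^ (1 - t) * ρ y ^ t ≤ ρ ((1 - t) • x + t • y)) →
    (∀ e : V (Fin n) ≃ₗᵢ[ℝ] V (Fin n), (∀ x, e x ∈ D ↔ x ∈ D) → ∀ x, ρ (e x) = ρ x) →
    mu ρ univ = 1 → ∀ s : ℝ, 0 < s → (∀ θ : V (Fin n),
      ∫⁻ x, ENNReal.ofReal (⟪θ, x⟫_ℝ ^ 2) ∂(mu ρ) ≤ ENNReal.ofReal (s * ‖θ‖ ^ 2)) →
    ∀ v : V (Fin n) → ℝ, ContDiff ℝ 1 v → (∀ x, |v x| ≤ 1) →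
    ENNReal.ofReal ((∫ x, (v x - ∫ y, v y ∂(mu ρ)) ^ 2 ∂(mu ρ)) ^ 2) ≤
      ENNReal.ofReal (C ^ (k ^ 2) * fac k T K * s) *
        ∫⁻ x, ENNReal.ofReal (‖fderiv ℝ v x‖ ^ 2) ∂(mu ρ) := by
  obtain ⟨C, hC, H⟩ := sct
  refine ⟨8 * C, by linarith, ?_⟩
  intro k n lab Q T q top K hyp D hD ρ hnn hmeas hlc hiso h1 s hs hmom v hv hvb
  have hG : GD (pm '' Q) ρ := ⟨hnn, hmeas, hlc, fun g hg x => hiso g (hD g hg) x⟩
  have hF := fac_one hyp.tc hyp.hK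
  have hpos : 0 < C ^ (k ^ 2) * fac k T K := by positivity
  refine (mainc hpos (H k n lab Q T q top K hyp) ρ hG h1 s hs hmom v hv hvb).trans ?_
  refine mul_le_mul_left (ENNReal.ofReal_le_ofReal ?_) _
  refine mul_le_mul_of_nonneg_right ?_ hs.le
  have hk2 : 1 ≤ k ^ 2 := Nat.one_le_pow _ _ hyp.hk
  have e5 : (8 : ℝ) ≤ 8 ^ (k ^ 2) := by
    calc (8 : ℝ) = 8 ^ 1 := (pow_one _).symm
      _ ≤ 8 ^ (k ^ 2) := pow_le_pow_right₀ (by norm_num) hk2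
  rw [mul_pow, ← mul_assoc]
  exact mul_le_mul_of_nonneg_right (mul_le_mul_of_nonneg_right e5 (by positivity)) (by linarith)

/-- the Poincare type bounds, covariance -/
theorem fullA : ∃ C : ℝ, 1 ≤ C ∧ ∀ (k n : ℕ) (lab : ℕ → Fin n → ℕ)
    (Q : Set (Equiv.Perm (Fin n))) (T : ℕ → ℝ) (q : ℕ) (top : Fin n → Fin q) (K : ℝ),
    Hyp k n lab Q T q top K →
    ∀ ρ : V (Fin n) → ℝ, GD (pm '' Q) ρ → mu ρ univ = 1 → ∀ s : ℝ, 0 < s →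
    (∀ θ : V (Fin n), ProbabilityTheory.evariance (fun x => ⟪θ, x⟫_ℝ) (mu ρ) ≤
      ENNReal.ofReal (s * ‖θ‖ ^ 2)) → ∀ f : V (Fin n) → ℝ, ContDiff ℝ 1 f →
    ((∀ x, ‖fderiv ℝ f x‖ ≤ 1) → MemLp f 2 (mu ρ) ∧
      ProbabilityTheory.variance f (mu ρ) ≤ C ^ (k ^ 2) * fac k T K * s) ∧
    ((∀ x, |f x| ≤ 1) → ENNReal.ofReal (ProbabilityTheory.variance f (mu ρ) ^ 2) ≤
      ENNReal.ofReal (C ^ (k ^ 2) * fac k T K * s) *
        ∫⁻ x, ENNReal.ofReal (‖fderiv ℝ f x‖ ^ 2) ∂(mu ρ)) := by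
  obtain ⟨C, hC, H⟩ := sct
  refine ⟨8 * C, by linarith, ?_⟩
  intro k n lab Q T q top K hyp ρ hρ h1 s hs hcov f hf
  have hF := fac_one hyp.tc hyp.hK
  have hpos : 0 < C ^ (k ^ 2) * fac k T K := by positivity
  have key := full hpos (H k n lab Q T q top K hyp) ρ hρ h1 s hs hcov f hf
  have hk2 : 1 ≤ k ^ 2 := Nat.one_le_pow _ _ hyp.hk
  have e5 : (8 : ℝ) ≤ 8 ^ (k ^ 2) := by
    calc (8 : ℝ) = 8 ^ 1 := (pow_one _).symm
      _ ≤ 8 ^ (k ^ 2) := pow_le_pow_right₀ (by norm_num) hk2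
  have e6 : 8 * (C ^ (k ^ 2) * fac k T K) * s ≤ (8 * C) ^ (k ^ 2) * fac k T K * s := by
    refine mul_le_mul_of_nonneg_right ?_ hs.le
    rw [mul_pow, ← mul_assoc]
    exact mul_le_mul_of_nonneg_right (mul_le_mul_of_nonneg_right e5 (by positivity)) (by linarith)
  refine ⟨fun h => ?_, fun h => ?_⟩
  · obtain ⟨k1, k2⟩ := key.1 h
    exact ⟨k1, k2.trans e6⟩
  · exact (key.2 h).trans (mul_le_mul_left (ENNReal.ofReal_le_ofReal e6) _)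

end Tow

end Pool.Agent.X43.KR
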