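import Pool.Agent.X43.KR.Red
import Pool.Agent.TH597.HX.Wr2
import Pool.Agent.TH368.HX_HARDY0
import Pool.Agent.TH720.HX_SEQ0
import Pool.Agent.TH148.HX_TAIL0

/-!
# Densities symmetric inside blocks of coordinates
-/

set_option autoImplicit false

namespace Pool.Agent.X43.KR

open MeasureTheory Set Filter
open scoped ENNReal InnerProductSpace Topology
open Pool.Agent.H212R2.KLS (mu Bdd)
open Pool.Agent.H888R2.KT (LC St tw tw_deriv tw_fub tw_lc)
open Pool.Agent.TH594.KP (V GD GG swp P Bs ev mem_Bs swp_apply SC card_Bs_pos)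
open Pool.Agent.TH597.HX
open Pool.Agent.TH597.HX.Wr (pm pm_apply exch1)
open Pool.Agent.TH597.HX.Arr (dev_nonneg dev_cont dev_add dev_smul dev_swp)
open Loc (ee)

namespace Blk

variable {ι : Type} [Fintype ι] [DecidableEq ι] {q : ℕ}

/-- a permutation of the coordinates acting on `ℝ^(ι × 1)` -/
noncomputable def pl (σ : Equiv.Perm ι) : V (ι × Fin 1) ≃ₗᵢ[ℝ] V (ι × Fin 1) :=
  pm (σ.prodCongr (Equiv.refl (Fin 1)))

theorem pl_apply (σ : Equiv.Perm ι) (x : V (ι × Fin 1)) (i : ι) (c : Fin 1) :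
    pl σ x (i, c) = x (σ.symm i, c) := by
  unfold pl
  rw [pm_apply]
  rfl

/-- the symmetries: exchanges inside the blocks, and the permutations in `Q` -/
def GQ (b : ι → Fin q) (Q : Set (Equiv.Perm ι)) : Set (V (ι × Fin 1) ≃ₗᵢ[ℝ] V (ι × Fin 1)) :=
  GG (Fin 1) b ∪ pl '' Q

/-- the permutations of the blocks induced by `Q` -/
def Ind (b : ι → Fin q) (Q : Set (Equiv.Perm ι)) : Set (Equiv.Perm (Fin q)) :=
  {π | ∃ σ ∈ Q, ∀ i, b (σ i) = π (b i)}

theorem gq_gg {b : ι → Fin q} {Q : Set (Equiv.Perm ι)} {ρ : V (ι × Fin 1) → ℝ}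
    (h : GD (GQ b Q) ρ) : GD (GG (Fin 1) b) ρ :=
  ⟨h.nonneg, h.meas, h.logc, fun g hg => h.inv g (Or.inl hg)⟩

theorem ee_apply' (b : ι → Fin q) (j : Fin q) (i : ι) (c : Fin 1) :
    ee b j (i, c) = if b i = j then 1 / Real.sqrt (Bs b j).card else 0 := by
  have hc : c = 0 := Subsingleton.elim _ _
  subst hc
  show (if b i = j ∧ (0 : Fin 1) = 0 then 1 / Real.sqrt (Bs b j).card else 0) = _
  simp

theorem card_eq {b : ι → Fin q} {σ : Equiv.Perm ι} {π : Equiv.Perm (Fin q)}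
    (h : ∀ i, b (σ i) = π (b i)) (j : Fin q) : (Bs b (π j)).card = (Bs b j).card := by
  symm
  refine Finset.card_bij (fun i _ => σ i) ?_ ?_ ?_
  · intro i hi
    rw [mem_Bs] at hi ⊢
    rw [h, hi]
  · intro i _ i' _ hii
    exact σ.injective hii
  · intro i hi
    rw [mem_Bs] at hi
    refine ⟨σ.symm i, ?_, by simp⟩
    rw [mem_Bs]
    have h1 := h (σ.symm i)
    rw [Equiv.apply_symm_apply, hi] at h1
    exact (π.injective h1).symm

theorem pl_ee {b : ι → Fin q} {σ : Equiv.Perm ι} {π : Equiv.Perm (Fin q)}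
    (h : ∀ i, b (σ i) = π (b i)) (j : Fin q) : pl σ (ee b j) = ee b (π j) := by
  ext ⟨i, c⟩
  rw [pl_apply, ee_apply', ee_apply', card_eq h]
  have h1 := h (σ.symm i)
  rw [Equiv.apply_symm_apply] at h1
  by_cases h2 : b (σ.symm i) = j
  · rw [if_pos h2, if_pos (by rw [h1, h2])]
  · rw [if_neg h2, if_neg (by rw [h1]; exact fun h3 => h2 (π.injective h3))]

theorem dev_pl {b : ι → Fin q} {σ : Equiv.Perm ι} {π : Equiv.Perm (Fin q)}
    (h : ∀ i, b (σ i) = π (b i)) (j : Fin q) (x : V (ι × Fin 1)) :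
    dev b (π j) (pl σ x) = dev b j x := by
  unfold dev
  symm
  have hmem : ∀ i, i ∈ Bs b j ↔ σ i ∈ Bs b (π j) := by
    intro i
    rw [mem_Bs, mem_Bs, h]
    exact ⟨fun h => by rw [h], fun h => π.injective h⟩
  refine Finset.sum_equiv σ hmem (fun i _ => ?_)
  refine Finset.sum_equiv σ hmem (fun i' _ => ?_)
  rw [pl_apply, pl_apply, Equiv.symm_apply_apply, Equiv.symm_apply_apply]

/-- level sets -/
def lv (b : ι → Fin q) (a : ℝ) : Set (V (ι × Fin 1)) :=
  {x | ∀ j, 2 ≤ (Bs b j).card → dev b j x ≤ a * ((Bs b j).card : ℝ) ^ 2}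

omit [DecidableEq ι] in
theorem lv_closed (b : ι → Fin q) (a : ℝ) : IsClosed (lv b a) := by
  have : lv b a = ⋂ j : Fin q, ⋂ _ : 2 ≤ (Bs b j).card,
      {x | dev b j x ≤ a * ((Bs b j).card : ℝ) ^ 2} := by
    ext x
    simp [lv]
  rw [this]
  exact isClosed_iInter fun j => isClosed_iInter fun _ =>
    isClosed_le (dev_cont b j) continuous_const

omit [DecidableEq ι] in
theorem lv_convex (b : ι → Fin q) (a : ℝ) : Convex ℝ (lv b a) := by
  have : lv b a = ⋂ j : Fin q, ⋂ _ : 2 ≤ (Bs b j).card,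
      {x | dev b j x ≤ a * ((Bs b j).card : ℝ) ^ 2} := by
    ext x
    simp [lv]
  rw [this]
  exact convex_iInter fun j => convex_iInter fun _ =>
    Arr.conv (dev b j) (dev_add b j) (dev_smul b j) _

omit [DecidableEq ι] in
theorem lv_mono (b : ι → Fin q) (a a' : ℝ) (h : a ≤ a') : lv b a ⊆ lv b a' := by
  intro x hx j hj
  exact (hx j hj).trans (mul_le_mul_of_nonneg_right h (by positivity))

theorem lv_inv (b : ι → Fin q) (Q : Set (Equiv.Perm ι))
    (hQ : ∀ σ ∈ Q, ∃ π : Equiv.Perm (Fin q), ∀ i, b (σ i) = π (b i)) (a : ℝ) :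
    ∀ g ∈ GQ b Q, ∀ x, g x ∈ lv b a ↔ x ∈ lv b a := by
  rintro g (⟨k, l, hkl, rfl⟩ | ⟨σ, hσ, rfl⟩) x
  · show (∀ j, _ → _) ↔ ∀ j, _ → _
    simp only [dev_swp b _ k l hkl x]
  · obtain ⟨π, hπ⟩ := hQ σ hσ
    constructor
    · intro hx j hj
      have h1 := hx (π j) (by rw [card_eq hπ]; exact hj)
      rw [dev_pl hπ, card_eq hπ] at h1
      exact h1
    · intro hx j hj
      obtain ⟨j', rfl⟩ := π.surjective j
      rw [dev_pl hπ, card_eq hπ]
      rw [card_eq hπ] at hj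
      exact hx j' hj

omit [DecidableEq ι] in
theorem dev_small (b : ι → Fin q) (j : Fin q) (h : (Bs b j).card ≤ 1) (x : V (ι × Fin 1)) :
    dev b j x = 0 := by
  unfold dev
  refine Finset.sum_eq_zero fun i hi => Finset.sum_eq_zero fun i' hi' => ?_
  rw [Finset.card_le_one.1 h i hi i' hi', sub_self, abs_zero]

theorem tailj {C : ℝ} (hT : Core.T0 C) (b : ι → Fin q) (ρ : V (ι × Fin 1) → ℝ)
    (hρ : GD (GG (Fin 1) b) ρ)
    (hB : Bdd ρ) (h1 : mu ρ univ = 1) (s : ℝ) (hs : 0 < s)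
    (hmom : ∀ θ : V (ι × Fin 1), ∫ x, ⟪θ, x⟫_ℝ ^ 2 ∂(mu ρ) ≤ s * ‖θ‖ ^ 2) (β : Fin q) (l : ℝ)
    (hl : 1 ≤ l) :
    (mu ρ).real {x : V (ι × Fin 1) | l * (C * Real.sqrt s) * ((Bs b β).card : ℝ) ^ 2 <
      dev b β x} ≤ Real.exp (-((Bs b β).card * l)) := by
  have hcoord : ∀ p : ι × Fin 1, ∫ x, x p ^ 2 ∂(mu ρ) ≤ s := by
    intro p
    have h2 := hmom (EuclideanSpace.single p 1)
    have h3 : ∀ x : V (ι × Fin 1), ⟪EuclideanSpace.single p (1:ℝ), x⟫_ℝ = x p := by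
      intro x
      rw [EuclideanSpace.inner_single_left]
      simp
    simp_rw [h3] at h2
    simpa using h2
  obtain ⟨S, hS⟩ : ∃ S : Finset (ι × Fin 1), S = (Bs b β).map
      ⟨fun i => (i, (0 : Fin 1)), fun i j h => congrArg Prod.fst h⟩ := ⟨_, rfl⟩
  have hcard : S.card = (Bs b β).card := by rw [hS, Finset.card_map]
  have hsum : ∀ x : V (ι × Fin 1), ∑ i ∈ S, ∑ j ∈ S, |x i - x j| = dev b β x := by
    intro x
    rw [hS]
    simp only [Finset.sum_map, Function.Embedding.coeFn_mk]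
    rfl
  have hinv : ∀ k ∈ S, ∀ l ∈ S, ∀ x y : V (ι × Fin 1), (∀ i, y i = x (Equiv.swap k l i)) →
      ρ y = ρ x := by
    intro k hk l hl x y hxy
    rw [hS, Finset.mem_map] at hk hl
    obtain ⟨k', hk', rfl⟩ := hk
    obtain ⟨l', hl', rfl⟩ := hl
    have e1 : y = swp k' l' x := by
      ext p
      rw [hxy p, swp_apply]
      exact congrArg (fun q => x q) (Core.swap_prod k' l' p)
    rw [e1]
    refine hρ.inv _ ⟨k', l', ?_, rfl⟩ x
    rw [(mem_Bs _ _ _).1 hk', (mem_Bs _ _ _).1 hl']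
  have h2 := hT S ρ hρ.nonneg hρ.meas hρ.logc hinv hB h1 s hs (fun i _ => hcoord i) l hl
  simp only [hsum, hcard] at h2
  rw [measureReal_def]
  exact ENNReal.toReal_le_of_le_ofReal (Real.exp_pos _).le h2

/-- **Transfer to the blocks.** -/
theorem main : ∃ C : ℝ, 0 < C ∧ ∀ {ι : Type} [Fintype ι] [DecidableEq ι] {q : ℕ} {b : ι → Fin q},
    Function.Surjective b → ∀ Q : Set (Equiv.Perm ι),
    (∀ σ ∈ Q, ∃ π : Equiv.Perm (Fin q), ∀ i, b (σ i) = π (b i)) → ∀ T : ℝ, 0 ≤ T →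
    ∑ j ∈ Finset.univ.filter (fun j => 2 ≤ (Bs b j).card), Real.exp (-(T * (Bs b j).card)) ≤ 1 →
    ∀ D : ℝ, 1 ≤ D → PI (pm '' Ind b Q) D → SC (GQ b Q) (C * (1 + T) ^ 2 * D) := by
  obtain ⟨C₁, hC₁, hin⟩ := Loc.inner Pool.Agent.TH368.hardy0 Pool.Agent.TH720.seq0
  obtain ⟨C₂, hC₂, hT0⟩ := Pool.Agent.TH148.HX.tail0
  refine ⟨40000 * (210 * (C₁ * C₂ ^ 2 + 2)), by positivity, ?_⟩
  intro ι _ _ q b hb Q hQ T hT hsum D hD hPI
  have key := red (G := GQ b Q) (ee b) (Loc.orth_ee hb)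
    (by
      rintro ρ hρ K hK g ⟨π, ⟨σ, hσ, hσπ⟩, rfl⟩ τ
      exact exch1 ρ hρ.meas (ee b) K π (pl σ) (hρ.inv _ (Or.inr ⟨σ, hσ, rfl⟩)) (pl_ee hσπ) τ)
    (lv b) (lv_closed b) (lv_convex b) (lv_inv b Q hQ) (lv_mono b) hC₁.le
    (by
      intro ρ hρ hLC a ha hsupp K hK hKa τ f hf
      refine hin hb ρ (gq_gg hρ) hLC a ha (fun x hx j => ?_) K hK hKa τ f hf
      by_cases h2 : 2 ≤ (Bs b j).card
      · exact hsupp x hx j h2
      · rw [dev_small b j (by omega) x]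
        positivity)
    (a₀ := C₂ * (1 + T)) (by positivity)
    (by
      intro ρ hρ hB h1 s hs hmom t ht
      have hprob : IsProbabilityMeasure (mu ρ) := ⟨h1⟩
      obtain ⟨J, hJ⟩ : ∃ J : Finset (Fin q),
          J = Finset.univ.filter (fun j => 2 ≤ (Bs b j).card) := ⟨_, rfl⟩
      rw [← hJ] at hsum
      have hsub : (lv b (t * (C₂ * (1 + T) * Real.sqrt s)))ᶜ ⊆
          ⋃ j ∈ J, {x | t * (1 + T) * (C₂ * Real.sqrt s) * ((Bs b j).card : ℝ) ^ 2 <
            dev b j x} := by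
        intro x hx
        by_contra hc
        refine hx fun j hj => ?_
        by_contra h3
        refine hc ?_
        simp only [mem_iUnion]
        refine ⟨j, by rw [hJ, Finset.mem_filter]; exact ⟨Finset.mem_univ _, hj⟩, ?_⟩
        have h4 := not_le.1 h3
        show t * (1 + T) * (C₂ * Real.sqrt s) * ((Bs b j).card : ℝ) ^ 2 < dev b j x
        refine lt_of_eq_of_lt (by ring) h4
      refine (measureReal_mono (μ := mu ρ) hsub (measure_ne_top (mu ρ) _)).trans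
        ((measureReal_biUnion_finset_le _ _).trans ?_)
      have h3 : ∀ j ∈ J, (mu ρ).real {x | t * (1 + T) * (C₂ * Real.sqrt s) *
          ((Bs b j).card : ℝ) ^ 2 < dev b j x} ≤
          Real.exp (-(t / 2)) * Real.exp (-(T * (Bs b j).card)) := by
        intro j hj
        rw [hJ, Finset.mem_filter] at hj
        have hm2 : (2 : ℝ) ≤ (Bs b j).card := by exact_mod_cast hj.2
        refine (tailj hT0 b ρ (gq_gg hρ) hB h1 s hs hmom j (t * (1 + T)) ?_).trans ?_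
        · nlinarith
        · rw [← Real.exp_add]
          refine Real.exp_le_exp.2 ?_
          have e1 : T * (Bs b j).card ≤ t * (T * (Bs b j).card) := by
            have : 0 ≤ T * (Bs b j).card := by positivity
            nlinarith
          have e2 : t * 2 ≤ t * (Bs b j).card := mul_le_mul_of_nonneg_left hm2 (by linarith)
          nlinarith
      refine (Finset.sum_le_sum h3).trans ?_
      rw [← Finset.mul_sum]
      have := mul_le_mul_of_nonneg_left hsum (Real.exp_pos (-(t / 2))).le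
      linarith)
    hD hPI
  intro ρ hρ hbd h1 s hs hmom f hf hf1
  refine (key ρ hρ hbd h1 s hs hmom f hf hf1).trans (mul_le_mul_of_nonneg_right ?_ hs.le)
  have h1T : 1 ≤ (1 + T) ^ 2 := one_le_pow₀ (by linarith)
  have e1 : C₁ * (C₂ * (1 + T)) ^ 2 + 2 ≤ (C₁ * C₂ ^ 2 + 2) * (1 + T) ^ 2 := by
    have : C₁ * (C₂ * (1 + T)) ^ 2 = C₁ * C₂ ^ 2 * (1 + T) ^ 2 := by ring
    rw [this]
    linarith
  calc 40000 * (210 * (C₁ * (C₂ * (1 + T)) ^ 2 + 2) * D)
      ≤ 40000 * (210 * ((C₁ * C₂ ^ 2 + 2) * (1 + T) ^ 2) * D) := by gcongr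
    _ = _ := by ring

end Blk

end Pool.Agent.X43.KR
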