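import Pool.Agent.X43.KR.Red

/-!
# Tilted densities, and the Poincaré inequality in dimension `q` with a constant of order `q`
-/

set_option autoImplicit false

namespace Pool.Agent.X43.KR

open MeasureTheory Set Filter
open scoped ENNReal InnerProductSpace Topology
open Pool.Agent.H212R2.KLS (mu Bdd)
open Pool.Agent.H888R2.KT
open Pool.Agent.H888R2.KT.G2x (mu_indicator integral_mu_mul mu_mono intg)
open Pool.Agent.TH594.KP (V GD SC tw_cont gd_tilt tilt_st)

/-- tilting keeps the class `LC` -/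
theorem lc_tilt {κ : Type} [Fintype κ] {q : ℕ} {ρ : V κ → ℝ} (hLC : LC ρ) (e : Fin q → V κ)
    (K : ℝ) (hK0 : 0 < K) (τ : V (Fin q)) : LC (fun x => ρ x * tw e K τ x) := by
  have hD : GD (∅ : Set (V κ ≃ₗᵢ[ℝ] V κ)) ρ := ⟨hLC.nonneg, hLC.meas, hLC.logc, fun g hg => hg.elim⟩
  have hD' : GD (∅ : Set (V κ ≃ₗᵢ[ℝ] V κ)) (fun x => ρ x * tw e K τ x) :=
    gd_tilt hD e (fun g hg => hg.elim) K hK0 τ
  have hw1 : ∀ x : V κ, tw e K τ x ≤ 1 := fun x => by
    unfold tw
    rw [Real.exp_le_one_iff, neg_nonpos]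
    positivity
  have hle' : ∀ x, ρ x * tw e K τ x ≤ ρ x :=
    fun x => mul_le_of_le_one_right (hD.nonneg x) (hw1 x)
  have hb' : Bdd (fun x => ρ x * tw e K τ x) := by
    obtain ⟨R, hR⟩ := hLC.bdd
    exact ⟨R, fun x hx => by simp only [hR x hx, zero_mul]⟩
  have hfin' : mu (fun x => ρ x * tw e K τ x) univ ≠ ⊤ :=
    ne_top_of_le_ne_top hLC.fin (mu_mono ρ _ hle' univ)
  have hne' : mu (fun x => ρ x * tw e K τ x) ≠ 0 := by
    intro h0
    refine hLC.ne ?_
    have h2 : (mu (fun x => ρ x * tw e K τ x)) univ = 0 := by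
      rw [h0]; rfl
    rw [mu, withDensity_apply _ MeasurableSet.univ, Measure.restrict_univ,
      lintegral_eq_zero_iff (hD'.meas.ennreal_ofReal)] at h2
    rw [mu]
    have h3 : (fun x => ENNReal.ofReal (ρ x)) =ᵐ[volume] 0 := by
      filter_upwards [h2] with x hx
      have hx' : ENNReal.ofReal (ρ x * tw e K τ x) = 0 := hx
      rw [ENNReal.ofReal_eq_zero] at hx'
      show ENNReal.ofReal (ρ x) = 0
      rw [ENNReal.ofReal_eq_zero]
      by_contra hc
      rw [not_le] at hc
      have : 0 < ρ x * tw e K τ x := mul_pos hc (Real.exp_pos _)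
      linarith
    exact (withDensity_congr_ae h3).trans (by simp)
  exact ⟨hD'.nonneg, hD'.meas, hD'.logc, hb', hfin', hne'⟩

/-- the Poincaré inequality in dimension `q`, with the constant `C q` -/
theorem piq : ∃ C : ℝ, 1 ≤ C ∧ ∀ q : ℕ, 1 ≤ q →
    PI (∅ : Set (V (Fin q) ≃ₗᵢ[ℝ] V (Fin q))) (C * q) := by
  obtain ⟨C, hC, hun⟩ := untiltq
  refine ⟨2 * C + 1, by linarith, ?_⟩
  intro q hq ρ hρ hLC s hs hmom f hf
  have hq1 : (1 : ℝ) ≤ q := by exact_mod_cast hq
  obtain ⟨e, he⟩ : ∃ e : Fin q → V (Fin q), e = fun j => EuclideanSpace.single j (1 : ℝ) :=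
    ⟨_, rfl⟩
  have hon : Orthonormal ℝ e := by
    rw [he]
    exact EuclideanSpace.orthonormal_single
  obtain ⟨c, hc⟩ := hun ρ hLC e hon s hs
    (fun j => by
      have h1 := hmom (e j)
      rw [hon.1 j, one_pow, mul_one] at h1
      exact h1)
    (fun τ g hg => by
      have hLC' := lc_tilt hLC e s hs τ
      have hw0 : ∀ x : V (Fin q), 0 ≤ tw e s τ x := fun x => (Real.exp_pos _).le
      have hwm : Measurable fun x : V (Fin q) => tw e s τ x := (tw_cont _ s τ).measurable
      obtain ⟨c, hc⟩ := Pool.Agent.W124.SX.iter hLC' e hon s hs (tilt_st hρ e s hs τ) s le_rfl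
        univ (fun u _ _ => mem_univ _)
        (fun u _ hu1 => by
          obtain ⟨h2, -⟩ := key hLC' e hon s hs (tilt_st hρ e s hs τ) s hs u hu1
          have h0 : ∀ x, ‖fderiv ℝ (gs s (pst s (fun x => ρ x * tw e s τ x) u)) x‖ ^ 2 -
              ∑ j, (fderiv ℝ (gs s (pst s (fun x => ρ x * tw e s τ x) u)) x (e j)) ^ 2 = 0 := by
            intro x
            rw [N8x.norm_sq_clm, he]
            exact sub_self _
          simp only [h0, integral_zero]
          refine mul_nonneg hs.le (integral_nonneg fun x => ?_)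
          unfold Pool.Agent.H888R2.KT.hs
          positivity)
        g (mem_univ _) hg
      rw [integral_mu_mul _ _ _ hρ.nonneg hρ.meas hw0 hwm,
        integral_mu_mul _ _ _ hρ.nonneg hρ.meas hw0 hwm] at hc
      refine ⟨c, hc.trans (mul_le_mul_of_nonneg_right (by linarith) ?_)⟩
      exact integral_nonneg fun x => mul_nonneg (by positivity) (hw0 x))
    f hf
  refine ⟨c, hc.trans (mul_le_mul_of_nonneg_right ?_ (integral_nonneg fun x => by positivity))⟩
  refine mul_le_mul_of_nonneg_right ?_ hs.le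
  have h1 : C * (q + 1) ≤ C * (2 * q) := mul_le_mul_of_nonneg_left (by linarith) hC.le
  have h2 : (0 : ℝ) ≤ q := by linarith
  linarith

end Pool.Agent.X43.KR
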