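import Pool.Agent.TH597.HX.Tr1

/-!
# From a group of symmetries to the Poincaré inequality in the dimension of its fixed space

`red`: the Lipschitz form of the KLS inequality for the log-concave densities invariant under `G`
follows from the Poincaré inequality for the tilted densities (`hin`), a tail bound and the Poincaré
inequality for all `G'`-invariant log-concave densities on `ℝ^q`, `q` the number of the directions of
the tilt.
-/

set_option autoImplicit false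

namespace Pool.Agent.X43.KR

open MeasureTheory Set Filter
open scoped ENNReal InnerProductSpace Topology
open Pool.Agent.H212R2.KLS (mu Bdd)
open Pool.Agent.H888R2.KT (LC St tw tw_deriv tw_fub tw_lc)
open Pool.Agent.H888R2.KT.V5x (tw_pos tw_cont norm_comb inner_comb)
open Pool.Agent.H888R2.KT.V4bx (w)
open Pool.Agent.H888R2.KT.G2x (mu_indicator integral_mu_mul mu_mono intg)
open Pool.Agent.TH594.KP (V GD gd_indicator gd_ball gd_smul SC)
open Pool.Agent.TH597.HX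
open Pool.Agent.TH597.HX.Out Pool.Agent.TH597.HX.Lpp Pool.Agent.TH597.HX.Step

/-- Poincaré inequality with the constant `D s` for all `G`-invariant log-concave densities of bounded
support with second moments at most `s` -/
def PI {κ : Type} [Fintype κ] (G : Set (V κ ≃ₗᵢ[ℝ] V κ)) (D : ℝ) : Prop :=
  ∀ ρ : V κ → ℝ, GD G ρ → LC ρ → ∀ s : ℝ, 0 < s →
    (∀ θ : V κ, ∫ x, ⟪θ, x⟫_ℝ ^ 2 ∂(mu ρ) ≤ s * ‖θ‖ ^ 2 * (mu ρ univ).toReal) →
    ∀ f : V κ → ℝ, ContDiff ℝ 1 f →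
    ∃ c : ℝ, ∫ x, (f x - c) ^ 2 ∂(mu ρ) ≤ D * s * ∫ x, ‖fderiv ℝ f x‖ ^ 2 ∂(mu ρ)

variable {q : ℕ}

/-- most of the Gaussian mass lies in a ball -/
theorem gball (K : ℝ) (hK : 0 < K) : ∃ r : ℝ, 0 < r ∧
    3 / 4 * GG q K ≤ ∫ τ in {τ : V (Fin q) | ‖τ‖ ≤ r}, w K (0 : Fin q → ℝ) τ := by
  obtain ⟨h2i, h2⟩ := n2 (n := q) K hK
  obtain ⟨h1i, h1⟩ := n1 (n := q) K hK 0
  have hG := GG_pos q hK
  have hqK : 0 ≤ (q : ℝ) * K := by positivity
  obtain ⟨r, hr⟩ : ∃ r : ℝ, r = 2 * Real.sqrt (q * K) + 1 := ⟨_, rfl⟩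
  have hs0 := Real.sqrt_nonneg ((q : ℝ) * K)
  have hsq := Real.sq_sqrt hqK
  have hr0 : 0 < r := by rw [hr]; positivity
  have hr2 : 4 * (q * K) ≤ r ^ 2 := by rw [hr]; nlinarith
  have hm : MeasurableSet {τ : V (Fin q) | ‖τ‖ ≤ r} :=
    (isClosed_le continuous_norm continuous_const).measurableSet
  refine ⟨r, hr0, ?_⟩
  have h3 := integral_add_compl hm h1i
  have h4 : ∫ τ in {τ : V (Fin q) | ‖τ‖ ≤ r}ᶜ, w K (0 : Fin q → ℝ) τ ≤ 1 / 4 * GG q K := by
    have h5 : r ^ 2 * ∫ τ in {τ : V (Fin q) | ‖τ‖ ≤ r}ᶜ, w K (0 : Fin q → ℝ) τ ≤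
        GG q K * (q * K) := by
      rw [← integral_const_mul, ← h2]
      calc ∫ τ in {τ : V (Fin q) | ‖τ‖ ≤ r}ᶜ, r ^ 2 * w K (0 : Fin q → ℝ) τ
          ≤ ∫ τ in {τ : V (Fin q) | ‖τ‖ ≤ r}ᶜ, ‖τ‖ ^ 2 * w K (0 : Fin q → ℝ) τ := by
            refine setIntegral_mono_on (h1i.const_mul _).integrableOn h2i.integrableOn hm.compl
              fun τ hτ => ?_
            have hτ' : r < ‖τ‖ := not_le.1 hτ
            exact mul_le_mul_of_nonneg_right (pow_le_pow_left₀ hr0.le hτ'.le 2)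
              (w_pos K 0 τ).le
        _ ≤ ∫ τ, ‖τ‖ ^ 2 * w K (0 : Fin q → ℝ) τ :=
            setIntegral_le_integral h2i (ae_of_all _ fun τ =>
              mul_nonneg (sq_nonneg _) (w_pos K 0 τ).le)
    have h6 : 0 ≤ ∫ τ in {τ : V (Fin q) | ‖τ‖ ≤ r}ᶜ, w K (0 : Fin q → ℝ) τ :=
      integral_nonneg fun τ => (w_pos K 0 τ).le
    have hr2' : 0 < r ^ 2 := by positivity
    have h7 : r ^ 2 * ∫ τ in {τ : V (Fin q) | ‖τ‖ ≤ r}ᶜ, w K (0 : Fin q → ℝ) τ ≤
        r ^ 2 * (1 / 4 * GG q K) := by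
      refine h5.trans ?_
      nlinarith
    exact le_of_mul_le_mul_left h7 hr2'
  linarith

/-- the mass of a ball for a shifted Gaussian weight -/
theorem lowB (K : ℝ) {r R : ℝ}
    (hr : 3 / 4 * GG q K ≤ ∫ τ in {τ : V (Fin q) | ‖τ‖ ≤ r}, w K (0 : Fin q → ℝ) τ)
    (hK : 0 < K) (s : Fin q → ℝ) (hs : ‖(WithLp.toLp 2 s : V (Fin q))‖ ≤ R) :
    3 / 4 * GG q K ≤ ∫ τ in {τ : V (Fin q) | ‖τ‖ ≤ R + r}, w K s τ := by
  refine hr.trans ?_
  obtain ⟨E, hEd⟩ : ∃ E : Set (V (Fin q)), E = {τ | ‖τ‖ ≤ R + r} := ⟨_, rfl⟩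
  have hE : MeasurableSet E := by
    rw [hEd]; exact (isClosed_le continuous_norm continuous_const).measurableSet
  rw [← hEd]
  have hm' : MeasurableSet {τ : V (Fin q) | ‖τ‖ ≤ r} :=
    (isClosed_le continuous_norm continuous_const).measurableSet
  rw [← integral_indicator hE, ← integral_indicator hm']
  have e1 : ∫ τ, E.indicator (w K s) τ = ∫ τ, E.indicator (fun _ => (1 : ℝ)) τ * w K s τ := by
    refine integral_congr_ae (ae_of_all _ fun τ => ?_)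
    show _ = indicator _ (fun _ => (1 : ℝ)) τ * w K s τ
    by_cases hx : τ ∈ E
    · rw [indicator_of_mem hx, indicator_of_mem hx, one_mul]
    · rw [indicator_of_notMem hx, indicator_of_notMem hx, zero_mul]
  rw [e1, int_shift]
  obtain ⟨hi, -⟩ := n1 (n := q) K hK 0
  refine integral_mono (hi.indicator hm') ?_ fun τ => ?_
  · have hm2 : Measurable fun τ : V (Fin q) =>
        E.indicator (fun _ => (1 : ℝ)) (τ + WithLp.toLp 2 s) :=
      (measurable_const.indicator hE).comp (measurable_add_const _)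
    refine hi.bdd_mul (c := 1) hm2.aestronglyMeasurable (ae_of_all _ fun τ => ?_)
    by_cases hx : τ + WithLp.toLp 2 s ∈ E
    · rw [indicator_of_mem hx]; simp
    · rw [indicator_of_notMem hx]; simp
  · show indicator _ (w K 0) τ ≤ indicator _ (fun _ => (1 : ℝ)) (τ + WithLp.toLp 2 s) * w K 0 τ
    have hpos := (w_pos K 0 τ).le
    by_cases hx : τ ∈ {τ : V (Fin q) | ‖τ‖ ≤ r}
    · have hx' : ‖τ‖ ≤ r := hx
      have hy : τ + WithLp.toLp 2 s ∈ E := by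
        rw [hEd]
        show ‖τ + WithLp.toLp 2 s‖ ≤ R + r
        refine (norm_add_le _ _).trans ?_
        linarith
      rw [indicator_of_mem hx, indicator_of_mem hy, one_mul]
    · rw [indicator_of_notMem hx]
      refine mul_nonneg (indicator_nonneg (fun _ _ => zero_le_one) _) hpos

variable {κ : Type} [Fintype κ] {G' : Set (V (Fin q) ≃ₗᵢ[ℝ] V (Fin q))} {D : ℝ}

/-- the Poincaré inequality for the law of the centre, on a ball -/
theorem outB (h : PI G' D) (ρ : V κ → ℝ) (hρ : LC ρ) (e : Fin q → V κ)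
    (he : Orthonormal ℝ e) (K s c : ℝ) (hK : 0 < K) (hs : 0 < s)
    (hmom : ∀ θ : V κ, ∫ x, ⟪θ, x⟫_ℝ ^ 2 ∂(mu ρ) ≤ s * ‖θ‖ ^ 2 * (mu ρ univ).toReal)
    (hinv : ∀ g ∈ G', ∀ τ, ∫ x, tw e K (g τ) x ∂(mu ρ) = ∫ x, tw e K τ x ∂(mu ρ))
    (hlow : ∀ x, ρ x ≠ 0 → GG q K / 2 ≤ ∫ τ in {τ : V (Fin q) | ‖τ‖ ≤ c}, tw e K τ x)
    (M : V (Fin q) → ℝ) (hM : ContDiff ℝ 1 M) :
    ∃ c₀ : ℝ, ∫ τ in {τ : V (Fin q) | ‖τ‖ ≤ c}, (M τ - c₀) ^ 2 * (∫ x, tw e K τ x ∂(mu ρ)) ≤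
      D * (2 * (s + K)) * ∫ τ in {τ : V (Fin q) | ‖τ‖ ≤ c},
        ‖fderiv ℝ M τ‖ ^ 2 * (∫ x, tw e K τ x ∂(mu ρ)) := by
  have hne : NeZero (mu ρ) := ⟨hρ.ne⟩
  have hfi : IsFiniteMeasure (mu ρ) := ⟨lt_top_iff_ne_top.2 hρ.fin⟩
  have hbd := ball_of hρ.meas hρ.bdd
  obtain ⟨hZpos, hZG, hZc, hZi, hZI, hZ2i, hZ2⟩ := zfacts (G := G') ρ hρ e he K s hK hmom hinv
  have hG : 0 < GG q K := GG_pos q hK
  obtain ⟨m₀, hm₀⟩ : ∃ m₀ : ℝ, m₀ = (mu ρ univ).toReal := ⟨_, rfl⟩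
  have hm0 : 0 < m₀ := by
    rw [hm₀]
    exact ENNReal.toReal_pos (by simpa using hρ.ne) hρ.fin
  rw [← hm₀] at hZI hZ2
  obtain ⟨U, hU⟩ : ∃ U : Set (V (Fin q)), U = {τ : V (Fin q) | ‖τ‖ ≤ c} := ⟨_, rfl⟩
  have hUm : MeasurableSet U := by
    rw [hU]
    exact (isClosed_le continuous_norm continuous_const).measurableSet
  -- the mass of `U`
  have hAlow : GG q K / 2 * m₀ ≤ ∫ τ in U, ∫ x, tw e K τ x ∂(mu ρ) := by
    have h1 := Unt.fubU (mu ρ) hbd e K hK (fun _ => (1 : ℝ)) continuous_const U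
    simp only [one_mul] at h1
    rw [h1]
    have hcont : Continuous (fun p : V κ × V (Fin q) => tw e K p.2 p.1) := by
      unfold tw
      refine Real.continuous_exp.comp (Continuous.neg (Continuous.div_const ?_ _))
      refine continuous_finsetSum _ fun j _ => ?_
      have h1 : Continuous fun p : V κ × V (Fin q) =>
          ⟪e j, p.1⟫_ℝ := continuous_const.inner continuous_fst
      have h2 : Continuous fun p : V κ × V (Fin q) => p.2 j := by
        fun_prop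
      exact (h1.sub h2).pow 2
    have hmeas : AEStronglyMeasurable (fun x => ∫ τ in U, tw e K τ x) (mu ρ) :=
      (hcont.stronglyMeasurable.integral_prod_right'
        (ν := (volume : Measure (V (Fin q))).restrict U)).aestronglyMeasurable
    have hi : Integrable (fun x => ∫ τ in U, tw e K τ x) (mu ρ) := by
      refine Integrable.of_bound hmeas (GG q K) (Filter.Eventually.of_forall fun x => ?_)
      obtain ⟨h3, h4⟩ := n1 (n := q) K hK fun j => ⟪e j, x⟫_ℝ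
      rw [Real.norm_of_nonneg (integral_nonneg fun τ => (tw_pos e K τ x).le), ← h4]
      exact setIntegral_le_integral h3
        (Filter.Eventually.of_forall fun τ => (tw_pos e K τ x).le)
    have h5 : ∫ _x, GG q K / 2 ∂(mu ρ) = GG q K / 2 * m₀ := by
      rw [integral_const, smul_eq_mul, mul_comm, hm₀]
      rfl
    rw [← h5]
    refine integral_mono_ae (integrable_const _) hi ?_
    filter_upwards [ae_ne hρ.meas] with x hx
    have h7 := hlow x hx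
    rw [← hU] at h7
    exact h7
  generalize hZdef : (fun τ : V (Fin q) => ∫ x, tw e K τ x ∂(mu ρ)) = Z at hZG hZc hZi
  have hZE : ∀ τ, ∫ x, tw e K τ x ∂(mu ρ) = Z τ := fun τ => congrFun hZdef τ
  simp only [hZE] at hZpos hZI hZ2i hZ2 hAlow ⊢
  obtain ⟨A, hA⟩ : ∃ A : ℝ, A = ∫ τ in U, Z τ := ⟨_, rfl⟩
  rw [← hA] at hAlow
  have hA0 : 0 < A := lt_of_lt_of_le (by positivity) hAlow
  have hAi : 0 ≤ A⁻¹ := (inv_pos.2 hA0).le
  obtain ⟨ρ', hρ'⟩ : ∃ ρ' : V (Fin q) → ℝ, ρ' = fun τ => A⁻¹ * U.indicator Z τ := ⟨_, rfl⟩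
  have hG' : GD G' ρ' := by
    rw [hρ', hU]
    exact gd_smul (gd_ball hZG c) _ hAi
  have hint : ∀ h : V (Fin q) → ℝ, ∫ τ, h τ ∂(mu ρ') = A⁻¹ * ∫ τ in U, h τ * Z τ := by
    intro h
    rw [hρ']
    exact int_norm Z hZG.nonneg hZG.meas U hUm A⁻¹ hAi h
  have hmass : mu ρ' univ = 1 := by
    rw [hρ']
    exact mass_norm Z hZG.nonneg hZG.meas hZi U hUm A hA hA0
  have hsupp : ∀ τ, ρ' τ ≠ 0 → τ ∈ U := by
    intro τ hτ
    by_contra h1
    refine hτ ?_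
    rw [hρ']
    show A⁻¹ * U.indicator Z τ = 0
    rw [indicator_of_notMem h1, mul_zero]
  have hBdd : Bdd ρ' := by
    refine ⟨c, fun τ hτ => ?_⟩
    by_contra h1
    have h2 : τ ∈ U := hsupp τ h1
    have h2' : ‖τ‖ ≤ c := by rw [hU] at h2; exact h2
    linarith
  have hLC' : LC ρ' := ⟨hG'.nonneg, hG'.meas, hG'.logc, hBdd, by rw [hmass]; exact ENNReal.one_ne_top,
    fun h0 => by rw [h0] at hmass; simp at hmass⟩
  have hmom' : ∀ θ : V (Fin q), ∫ τ, ⟪θ, τ⟫_ℝ ^ 2 ∂(mu ρ') ≤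
      (2 * (s + K)) * ‖θ‖ ^ 2 * (mu ρ' univ).toReal := by
    intro θ
    rw [hint, hmass, ENNReal.toReal_one, mul_one]
    have h3 : ∫ τ in U, ⟪θ, τ⟫_ℝ ^ 2 * Z τ ≤ (s + K) * ‖θ‖ ^ 2 * (GG q K * m₀) :=
      (setIntegral_le_integral (hZ2i θ) (Filter.Eventually.of_forall fun τ =>
        mul_nonneg (sq_nonneg _) (hZpos τ).le)).trans (hZ2 θ)
    rw [inv_mul_le_iff₀ hA0]
    refine h3.trans ?_
    have h4 := mul_le_mul_of_nonneg_right hAlow (by positivity : 0 ≤ 2 * (s + K) * ‖θ‖ ^ 2)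
    calc (s + K) * ‖θ‖ ^ 2 * (GG q K * m₀) = GG q K / 2 * m₀ * (2 * (s + K) * ‖θ‖ ^ 2) := by ring
      _ ≤ A * (2 * (s + K) * ‖θ‖ ^ 2) := h4
  obtain ⟨c₀, hc₀⟩ := h ρ' hG' hLC' (2 * (s + K)) (by positivity) hmom' M hM
  refine ⟨c₀, ?_⟩
  rw [hint, hint] at hc₀
  rw [← hU]
  have h1 := mul_le_mul_of_nonneg_left hc₀ hA0.le
  rw [← mul_assoc, mul_inv_cancel₀ hA0.ne', one_mul] at h1
  refine h1.trans (le_of_eq ?_)
  rw [← mul_assoc, mul_comm A, mul_assoc, ← mul_assoc A, mul_inv_cancel₀ hA0.ne', one_mul]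

/-- **The reduction.** -/
theorem red {G : Set (V κ ≃ₗᵢ[ℝ] V κ)} (e : Fin q → V κ) (he : Orthonormal ℝ e)
    (hinv : ∀ ρ : V κ → ℝ, GD G ρ → ∀ K : ℝ, 0 < K → ∀ g ∈ G', ∀ τ,
      ∫ x, tw e K (g τ) x ∂(mu ρ) = ∫ x, tw e K τ x ∂(mu ρ))
    (A : ℝ → Set (V κ)) (hAcl : ∀ a, IsClosed (A a)) (hAco : ∀ a, Convex ℝ (A a))
    (hAinv : ∀ a, ∀ g ∈ G, ∀ x, g x ∈ A a ↔ x ∈ A a) (hAmo : ∀ a a', a ≤ a' → A a ⊆ A a')
    {c₁ : ℝ} (hc₁ : 0 ≤ c₁)
    (hin : ∀ ρ : V κ → ℝ, GD G ρ → LC ρ → ∀ a : ℝ, 0 < a → (∀ x, ρ x ≠ 0 → x ∈ A a) →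
      ∀ K : ℝ, 0 < K → c₁ * a ^ 2 ≤ K → ∀ (τ : V (Fin q)) (f : V κ → ℝ), ContDiff ℝ 1 f →
      ∃ c : ℝ, ∫ x, (f x - c) ^ 2 * tw e K τ x ∂(mu ρ) ≤
        5 * K * ∫ x, ‖fderiv ℝ f x‖ ^ 2 * tw e K τ x ∂(mu ρ))
    {a₀ : ℝ} (ha₀ : 0 < a₀)
    (htail : ∀ ρ : V κ → ℝ, GD G ρ → Bdd ρ → mu ρ univ = 1 → ∀ s : ℝ, 0 < s →
      (∀ θ : V κ, ∫ x, ⟪θ, x⟫_ℝ ^ 2 ∂(mu ρ) ≤ s * ‖θ‖ ^ 2) → ∀ t : ℝ, 1 ≤ t →
      (mu ρ).real (A (t * (a₀ * Real.sqrt s)))ᶜ ≤ Real.exp (-(t / 2)))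
    (hD : 1 ≤ D) (hPI : PI G' D) :
    SC G (40000 * (210 * (c₁ * a₀ ^ 2 + 2) * D)) := by
  intro ρ hρ hbd h1 s hs hmom f hf hf1
  have hprob : IsProbabilityMeasure (mu ρ) := ⟨h1⟩
  have hball := ball_of hρ.meas hbd
  have hss : 0 < Real.sqrt s := Real.sqrt_pos.2 hs
  have hD0 : 0 < D := by linarith
  have hmain := Pool.Agent.TH594.KP.Mul.multi0 (mu ρ) hball
    (fun t => A (t * (a₀ * Real.sqrt s)))
    (fun t => (hAcl _).measurableSet)
    (fun t t' htt => hAmo _ _ (mul_le_mul_of_nonneg_right htt (by positivity)))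
    (fun t ht => by
      rw [← ENNReal.ofReal_toReal (measure_ne_top (mu ρ) _)]
      exact ENNReal.ofReal_le_ofReal (htail ρ hρ hbd h1 s hs hmom t ht))
    (210 * (c₁ * a₀ ^ 2 + 2) * D * s) (by positivity)
    (fun t ht g hg => by
      have ht1 : 1 ≤ t := by linarith
      obtain ⟨a, ha⟩ : ∃ a : ℝ, a = t * (a₀ * Real.sqrt s) := ⟨_, rfl⟩
      have ha0 : 0 < a := by rw [ha]; positivity
      have hta := htail ρ hρ hbd h1 s hs hmom t ht1
      rw [← ha] at hta ⊢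
      obtain ⟨U, hU⟩ : ∃ U : Set (V κ), U = A a := ⟨_, rfl⟩
      have hUm : MeasurableSet U := by rw [hU]; exact (hAcl _).measurableSet
      rw [← hU] at hta ⊢
      have hhalf : 1 / 2 ≤ (mu ρ U).toReal := by
        rw [probReal_compl_eq_one_sub hUm] at hta
        have h4 : Real.exp (-(t / 2)) ≤ 1 / 2 := by
          rw [Real.exp_neg, inv_le_comm₀ (Real.exp_pos _) (by norm_num)]
          have := Real.add_one_le_exp (t / 2)
          linarith
        rw [measureReal_def] at hta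
        linarith
      have hDg : GD G (U.indicator ρ) := by
        refine gd_indicator hρ U ?_ hUm fun g hg x => ?_
        · rw [hU]
          exact hAco a
        · rw [hU]
          exact hAinv a g hg x
      have hres : mu (U.indicator ρ) = (mu ρ).restrict U := mu_indicator ρ U hUm
      have hle : ∀ x, U.indicator ρ x ≤ ρ x :=
        fun x => Set.indicator_le_self' (fun _ _ => hρ.nonneg _) x
      have hbU : Bdd (U.indicator ρ) := by
        obtain ⟨R, hR⟩ := hbd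
        refine ⟨R, fun x hx => le_antisymm ?_ (hDg.nonneg x)⟩
        rw [← hR x hx]
        exact hle x
      have hfinU : mu (U.indicator ρ) univ ≠ ⊤ := by
        have := (mu_mono ρ (U.indicator ρ) hle univ).trans_eq h1
        exact ne_top_of_le_ne_top ENNReal.one_ne_top this
      have hneU : mu (U.indicator ρ) ≠ 0 := by
        intro h0
        rw [hres] at h0
        have h2 : mu ρ U = 0 := by
          rw [← Measure.restrict_apply_univ, h0]
          simp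
        rw [h2] at hhalf
        norm_num at hhalf
      have hLC : LC (U.indicator ρ) := ⟨hDg.nonneg, hDg.meas, hDg.logc, hbU, hfinU, hneU⟩
      have hsuppU : ∀ x, U.indicator ρ x ≠ 0 → x ∈ A a := by
        intro x hx
        by_contra hc
        refine hx ?_
        have : x ∉ U := by rw [hU]; exact hc
        rw [Set.indicator_of_notMem this]
      have hmomU : ∀ θ : V κ, ∫ x, ⟪θ, x⟫_ℝ ^ 2 ∂(mu (U.indicator ρ)) ≤
          2 * s * ‖θ‖ ^ 2 * (mu (U.indicator ρ) univ).toReal := by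
        intro θ
        rw [hres, Measure.restrict_apply_univ]
        have h2 : ∫ x in U, ⟪θ, x⟫_ℝ ^ 2 ∂(mu ρ) ≤ ∫ x, ⟪θ, x⟫_ℝ ^ 2 ∂(mu ρ) :=
          setIntegral_le_integral (intg (mu ρ) hball _ (by fun_prop))
            (ae_of_all _ fun x => by positivity)
        refine h2.trans ((hmom θ).trans ?_)
        have h5 : s * ‖θ‖ ^ 2 * 1 ≤ s * ‖θ‖ ^ 2 * (2 * (mu ρ U).toReal) :=
          mul_le_mul_of_nonneg_left (by linarith) (by positivity)
        linarith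
      -- the tilt
      obtain ⟨K, hK⟩ : ∃ K : ℝ, K = c₁ * a ^ 2 + 2 * s := ⟨_, rfl⟩
      have hK0 : 0 < K := by rw [hK]; positivity
      have hne : NeZero (mu (U.indicator ρ)) := ⟨hneU⟩
      have hfi : IsFiniteMeasure (mu (U.indicator ρ)) := ⟨lt_top_iff_ne_top.2 hfinU⟩
      have hballU := ball_of hDg.meas hbU
      obtain ⟨r, hr0, hr⟩ := gball (q := q) K hK0
      obtain ⟨R, hR⟩ := hbU
      have hRx : ∀ x, U.indicator ρ x ≠ 0 → ‖x‖ ≤ R := by
        intro x hx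
        by_contra hc
        exact hx (hR x (not_le.1 hc))
      have hnorm : ∀ x : V κ, ‖(WithLp.toLp 2 fun j => ⟪e j, x⟫_ℝ : V (Fin q))‖ ≤ ‖x‖ := by
        intro x
        refine abs_le_of_sq_le_sq' ?_ (norm_nonneg _) |>.2
        rw [EuclideanSpace.real_norm_sq_eq]
        have h3 := he.sum_inner_products_le x (s := Finset.univ)
        simpa [Real.norm_eq_abs, sq_abs] using h3
      have hlow : ∀ x, U.indicator ρ x ≠ 0 → GG q K / 2 ≤
          ∫ τ in {τ : V (Fin q) | ‖τ‖ ≤ R + r}, tw e K τ x := by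
        intro x hx
        have h2 := lowB K hr hK0 (fun j => ⟪e j, x⟫_ℝ) ((hnorm x).trans (hRx x hx))
        have h3 := GG_pos q hK0
        have h4 : GG q K / 2 ≤ 3 / 4 * GG q K := by linarith
        exact h4.trans h2
      have hUm' : MeasurableSet {τ : V (Fin q) | ‖τ‖ ≤ R + r} :=
        (isClosed_le continuous_norm continuous_const).measurableSet
      obtain ⟨c₀, hc₀⟩ := Unt.unt (mu (U.indicator ρ)) hballU e he K hK0
        {τ : V (Fin q) | ‖τ‖ ≤ R + r} hUm' (D * (2 * (2 * s + K))) (by positivity)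
        (fun M hM => outB hPI (U.indicator ρ) hLC e he K (2 * s) (R + r) hK0 (by positivity) hmomU
          (hinv _ hDg K hK0) hlow M hM)
        (by filter_upwards [ae_ne hLC.meas] with x hx; exact hlow x hx)
        (fun τ f hf => hin _ hDg hLC a ha0 hsuppU K hK0 (by rw [hK]; linarith) τ f hf)
        g hg
      rw [hres] at hc₀
      refine ⟨c₀, hc₀.trans (mul_le_mul_of_nonneg_right ?_ (integral_nonneg fun x => by positivity))⟩
      have e1 : a ^ 2 = a₀ ^ 2 * s * t ^ 2 := by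
        rw [ha, mul_pow, mul_pow, Real.sq_sqrt hs.le]
        ring
      have e2 : 2 * s ≤ 2 * s * t ^ 2 := by
        have h2 : 1 ≤ t ^ 2 := one_le_pow₀ ht1
        nlinarith
      have e3 : K ≤ (c₁ * a₀ ^ 2 + 2) * s * t ^ 2 := by
        rw [hK, e1]
        nlinarith
      have e4 : 2 * s ≤ K := by
        rw [hK]
        have : 0 ≤ c₁ * a ^ 2 := by positivity
        linarith
      have e5 : K ≤ D * K := by nlinarith
      have e6 : D * (2 * (2 * s + K)) ≤ 4 * (D * K) := by nlinarith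
      calc 2 * (5 * K + 25 * (D * (2 * (2 * s + K))))
          ≤ 210 * (D * K) := by linarith
        _ ≤ 210 * (D * ((c₁ * a₀ ^ 2 + 2) * s * t ^ 2)) := by gcongr
        _ = 210 * (c₁ * a₀ ^ 2 + 2) * D * s * t ^ 2 := by ring)
    f hf hf1
  refine hmain.trans (le_of_eq ?_)
  ring

end Pool.Agent.X43.KR
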