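import Pool.Agent.X43.KR.WB2
import Pool.Agent.X43.KR.Gen
import Pool.Agent.TH597.HX.Tr2

/-!
# Towers of partitions of the coordinates
-/

set_option autoImplicit false

namespace Pool.Agent.X43.KR

open MeasureTheory Set Filter
open scoped ENNReal InnerProductSpace Topology
open Pool.Agent.H212R2.KLS (mu Bdd)
open Pool.Agent.H888R2.KT (LC St tw)
open Pool.Agent.TH594.KP (V GD GG swp P Bs ev mem_Bs swp_apply SC card_Bs_pos gd_indicator gd_ball
  gd_smul)
open Pool.Agent.TH597.HX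
open Pool.Agent.TH597.HX.Out Pool.Agent.TH597.HX.Lpp Pool.Agent.TH597.HX.Step
open Pool.Agent.TH597.HX.Wr (pm pm_apply exch1 In)
open Pool.Agent.TH597.HX.Tr (LPQ)
open Loc (ee)
open Blk

/-- from the Poincaré inequality to the local Poincaré property -/
theorem pi_lpp {q : ℕ} (hq : 1 ≤ q) {P : Set (Equiv.Perm (Fin q))} {D : ℝ} (hD : 0 ≤ D)
    (h : PI (pm '' P) D) : LPP (pm '' P) D 1 (fun x : V (Fin q) => ‖x‖ / (2 * Real.sqrt q)) := by
  have hq0 : (0 : ℝ) < q := by exact_mod_cast hq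
  have hsq : 0 < Real.sqrt q := Real.sqrt_pos.2 hq0
  have hsq2 : Real.sqrt q ^ 2 = q := Real.sq_sqrt hq0.le
  have h0 : 0 < 2 * Real.sqrt q := by positivity
  refine ⟨?_, ?_, ?_, ?_, ?_, ?_, ?_⟩
  · intro x y
    rw [← add_div]
    exact div_le_div_of_nonneg_right (norm_add_le x y) h0.le
  · intro c x
    rw [norm_smul, Real.norm_eq_abs, mul_div_assoc]
  · intro r
    exact isClosed_le (continuous_norm.div_const _) continuous_const
  · exact ⟨2 * Real.sqrt q, fun x => le_of_eq (by field_simp)⟩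
  · intro g _ x
    rw [g.norm_map]
  · intro ρ hρ hLC a s ha hs hmom _ f hf
    obtain ⟨c, hc⟩ := h ρ hρ hLC s hs hmom f hf
    refine ⟨c, hc.trans (mul_le_mul_of_nonneg_right ?_ (integral_nonneg fun x => by positivity))⟩
    exact mul_le_mul_of_nonneg_left (by nlinarith) hD
  · intro ρ hρ hbd h1 s hs hmom
    have hprob : IsProbabilityMeasure (mu ρ) := ⟨h1⟩
    have hss : 0 < Real.sqrt s := Real.sqrt_pos.2 hs
    have hss2 : Real.sqrt s ^ 2 = s := Real.sq_sqrt hs.le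
    have hball := ball_of hρ.meas hbd
    have hi : ∀ j : Fin q, Integrable (fun x : V (Fin q) => x j ^ 2) (mu ρ) := fun j =>
      Pool.Agent.H888R2.KT.G2x.intg (mu ρ) hball _ (by fun_prop)
    have hin : Integrable (fun x : V (Fin q) => ‖x‖ ^ 2) (mu ρ) :=
      Pool.Agent.H888R2.KT.G2x.intg (mu ρ) hball _ (by fun_prop)
    have hcoord : ∀ j : Fin q, ∫ x, x j ^ 2 ∂(mu ρ) ≤ s := by
      intro j
      have h2 := hmom (EuclideanSpace.single j 1)
      have h3 : ∀ x : V (Fin q), ⟪EuclideanSpace.single j (1:ℝ), x⟫_ℝ = x j := by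
        intro x
        rw [EuclideanSpace.inner_single_left]
        simp
      simp_rw [h3] at h2
      simpa using h2
    have hsum : ∫ x, ‖x‖ ^ 2 ∂(mu ρ) ≤ q * s := by
      have e : ∀ x : V (Fin q), ‖x‖ ^ 2 = ∑ j, x j ^ 2 := fun x => EuclideanSpace.real_norm_sq_eq x
      simp_rw [e]
      rw [integral_finsetSum _ fun j _ => hi j]
      refine (Finset.sum_le_sum fun j _ => hcoord j).trans (le_of_eq ?_)
      rw [Finset.sum_const, Finset.card_univ, Fintype.card_fin, nsmul_eq_mul]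
    have hms : MeasurableSet {x : V (Fin q) | ‖x‖ / (2 * Real.sqrt q) ≤ 1 * Real.sqrt s} :=
      (isClosed_le (continuous_norm.div_const _) continuous_const).measurableSet
    have hcompl := probReal_compl_eq_one_sub (μ := mu ρ) hms
    have hmk := mul_meas_ge_le_integral_of_nonneg (μ := mu ρ)
      (f := fun x : V (Fin q) => ‖x‖ ^ 2) (ae_of_all _ fun x => sq_nonneg _) hin (4 * q * s)
    have hsub : {x : V (Fin q) | ‖x‖ / (2 * Real.sqrt q) ≤ 1 * Real.sqrt s}ᶜ ⊆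
        {x : V (Fin q) | 4 * q * s ≤ ‖x‖ ^ 2} := by
      intro x hx
      have hx' : 1 * Real.sqrt s < ‖x‖ / (2 * Real.sqrt q) := not_le.1 hx
      rw [lt_div_iff₀ h0, one_mul] at hx'
      show 4 * q * s ≤ ‖x‖ ^ 2
      have h3 : 0 ≤ Real.sqrt s * (2 * Real.sqrt q) := by positivity
      have h4 := pow_le_pow_left₀ h3 hx'.le 2
      have h5 : (Real.sqrt s * (2 * Real.sqrt q)) ^ 2 = 4 * q * s := by
        calc (Real.sqrt s * (2 * Real.sqrt q)) ^ 2 = 4 * Real.sqrt q ^ 2 * Real.sqrt s ^ 2 := by ring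
          _ = _ := by rw [hsq2, hss2]
      linarith
    have h6 := measureReal_mono (μ := mu ρ) hsub
    have h7 : 4 * q * s * (mu ρ).real {x : V (Fin q) | 4 * q * s ≤ ‖x‖ ^ 2} ≤ q * s :=
      hmk.trans hsum
    have h8 : (q : ℝ) * s * (4 * (mu ρ).real {x : V (Fin q) | 4 * q * s ≤ ‖x‖ ^ 2}) ≤
        q * s * 1 := by linarith
    have h9 := le_of_mul_le_mul_left h8 (by positivity)
    linarith

/-- change of the set of symmetries -/
theorem lpp_congr {κ : Type} [Fintype κ] {G G' : Set (V κ ≃ₗᵢ[ℝ] V κ)} {D B : ℝ} {N : V κ → ℝ}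
    (h : LPP G D B N) (h1 : ∀ ρ, GD G' ρ → GD G ρ) (h2 : ∀ g ∈ G', ∀ x, N (g x) = N x) :
    LPP G' D B N :=
  ⟨h.add, h.smul, h.closed, h.bdd, h2, fun ρ hρ => h.poi ρ (h1 ρ hρ),
    fun ρ hρ => h.tail ρ (h1 ρ hρ)⟩

namespace Tow

/-- tower of `k` partitions of the coordinates -/
structure Tower {n : ℕ} (k : ℕ) (lab : ℕ → Fin n → ℕ) (Q : Set (Equiv.Perm (Fin n))) : Prop where
  bot : ∀ x y, lab 0 x = lab 0 y → x = y
  mono : ∀ j < k, ∀ x y, lab j x = lab j y → lab (j + 1) x = lab (j + 1) y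
  pres : ∀ σ ∈ Q, ∀ j ≤ k, ∀ x y, lab j x = lab j y ↔ lab j (σ x) = lab j (σ y)
  exch : ∀ j < k, ∀ x y, lab (j + 1) x = lab (j + 1) y → lab j x ≠ lab j y → ∃ σ ∈ Q,
    lab j (σ x) = lab j y ∧ lab j (σ y) = lab j x ∧
      ∀ z, lab j z ≠ lab j x → lab j z ≠ lab j y → lab j (σ z) = lab j z

/-- number of the blocks of level `j` in the block `c` of level `j + 1` -/
def sub {n : ℕ} (lab : ℕ → Fin n → ℕ) (j c : ℕ) : ℕ :=
  ((Finset.univ.filter fun x => lab (j + 1) x = c).image (lab j)).card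

/-- condition on the numbers `T` -/
def TC {n : ℕ} (k : ℕ) (lab : ℕ → Fin n → ℕ) (T : ℕ → ℝ) : Prop :=
  ∀ j < k, 0 ≤ T j ∧
    ∑ c ∈ (Finset.univ.image (lab (j + 1))).filter (fun c => 2 ≤ sub lab j c),
      Real.exp (-(T j * sub lab j c)) ≤ 1

theorem exlab {n : ℕ} (f : Fin n → ℕ) : ∃ (q : ℕ) (b : Fin n → Fin q),
    Function.Surjective b ∧ ∀ x y, b x = b y ↔ f x = f y := by
  obtain ⟨S, hS⟩ : ∃ S : Finset ℕ, S = Finset.univ.image f := ⟨_, rfl⟩
  have hmem : ∀ x, f x ∈ S := fun x => by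
    rw [hS]
    exact Finset.mem_image_of_mem _ (Finset.mem_univ _)
  refine ⟨S.card, fun x => S.equivFin ⟨f x, hmem x⟩, ?_, ?_⟩
  · intro t
    obtain ⟨⟨v, hv⟩, rfl⟩ := S.equivFin.surjective t
    have hv' := hv
    rw [hS, Finset.mem_image] at hv'
    obtain ⟨x, -, rfl⟩ := hv'
    exact ⟨x, rfl⟩
  · intro x y
    rw [S.equivFin.injective.eq_iff]
    exact ⟨fun h => congrArg Subtype.val h, fun h => Subtype.ext h⟩

variable {n q k : ℕ} {lab : ℕ → Fin n → ℕ} {Q : Set (Equiv.Perm (Fin n))}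

theorem chain (h : Tower (k + 1) lab Q) {x y : Fin n} (hxy : lab 1 x = lab 1 y) :
    ∀ j ≤ k, lab (j + 1) x = lab (j + 1) y := by
  intro j
  induction j with
  | zero => exact fun _ => hxy
  | succ j ih => exact fun hj => h.mono (j + 1) (by omega) _ _ (ih (by omega))

/-- a permutation which preserves the fibres of `b` induces a permutation of the blocks -/
theorem ind_of {b : Fin n → Fin q} (hb : Function.Surjective b) (σ : Equiv.Perm (Fin n))
    (h : ∀ x y, b x = b y ↔ b (σ x) = b (σ y)) :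
    ∃ π : Equiv.Perm (Fin q), ∀ i, b (σ i) = π (b i) := by
  obtain ⟨r, hr⟩ := hb.hasRightInverse
  have hinj : Function.Injective fun c => b (σ (r c)) := by
    intro c c' hcc
    have h1 : b (r c) = b (r c') := (h _ _).2 hcc
    rwa [hr, hr] at h1
  refine ⟨Equiv.ofBijective _ (Finite.injective_iff_bijective.1 hinj), fun i => ?_⟩
  show b (σ i) = b (σ (r (b i)))
  exact (h _ _).1 (hr _).symm

variable {b : Fin n → Fin q} {r : Fin q → Fin n}

theorem down (h : Tower (k + 1) lab Q) (hb : Function.Surjective b)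
    (hlab : ∀ x y, b x = b y ↔ lab 1 x = lab 1 y) (hr : Function.RightInverse r b) :
    Tower k (fun j c => lab (j + 1) (r c)) (Ind b Q) := by
  have hQ : ∀ σ ∈ Q, ∃ π : Equiv.Perm (Fin q), ∀ i, b (σ i) = π (b i) := by
    intro σ hσ
    refine ind_of hb σ fun x y => ?_
    rw [hlab, hlab]
    exact h.pres σ hσ 1 (by omega) x y
  have key : ∀ (σ : Equiv.Perm (Fin n)) (π : Equiv.Perm (Fin q)), (∀ i, b (σ i) = π (b i)) →
      ∀ j ≤ k, ∀ c, lab (j + 1) (r (π c)) = lab (j + 1) (σ (r c)) := by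
    intro σ π hσπ j hj c
    refine chain h ?_ j hj
    rw [← hlab, hr, hσπ, hr]
  refine ⟨?_, ?_, ?_, ?_⟩
  · intro c c' hcc
    have h1 : b (r c) = b (r c') := (hlab _ _).2 hcc
    rwa [hr, hr] at h1
  · intro j hj c c' hcc
    exact h.mono (j + 1) (by omega) _ _ hcc
  · rintro π ⟨σ, hσ, hσπ⟩ j hj c c'
    show lab (j + 1) (r c) = lab (j + 1) (r c') ↔ lab (j + 1) (r (π c)) = lab (j + 1) (r (π c'))
    rw [key σ π hσπ j hj, key σ π hσπ j hj]
    exact h.pres σ hσ (j + 1) (by omega) _ _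
  · intro j hj c c' h1 h2
    obtain ⟨σ, hσ, h3, h4, h5⟩ := h.exch (j + 1) (by omega) (r c) (r c') h1 h2
    obtain ⟨π, hπ⟩ := hQ σ hσ
    refine ⟨π, ⟨σ, hσ, hπ⟩, ?_, ?_, ?_⟩
    · show lab (j + 1) (r (π c)) = _
      rw [key σ π hπ j hj.le, h3]
    · show lab (j + 1) (r (π c')) = _
      rw [key σ π hπ j hj.le, h4]
    · intro z hz1 hz2
      show lab (j + 1) (r (π z)) = _
      rw [key σ π hπ j hj.le]
      exact h5 _ hz1 hz2

theorem sub_down (h : Tower (k + 1) lab Q)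
    (hlab : ∀ x y, b x = b y ↔ lab 1 x = lab 1 y) (hr : Function.RightInverse r b) (j : ℕ)
    (hj : j < k) (c : ℕ) : sub (fun j c => lab (j + 1) (r c)) j c = sub lab (j + 1) c := by
  unfold sub
  congr 1
  ext v
  simp only [Finset.mem_image, Finset.mem_filter, Finset.mem_univ, true_and]
  constructor
  · rintro ⟨x, h1, h2⟩
    exact ⟨r x, h1, h2⟩
  · rintro ⟨x, h1, h2⟩
    have h3 : lab 1 (r (b x)) = lab 1 x := (hlab _ _).1 (hr _)
    refine ⟨b x, ?_, ?_⟩
    · rw [← h1]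
      exact chain h h3 (j + 1) hj
    · rw [← h2]
      exact chain h h3 j hj.le

theorem image_down (h : Tower (k + 1) lab Q)
    (hlab : ∀ x y, b x = b y ↔ lab 1 x = lab 1 y) (hr : Function.RightInverse r b) (j : ℕ)
    (hj : j < k) : Finset.univ.image (fun c => lab (j + 1 + 1) (r c)) =
      Finset.univ.image (lab (j + 1 + 1)) := by
  ext v
  simp only [Finset.mem_image, Finset.mem_univ, true_and]
  constructor
  · rintro ⟨x, h1⟩
    exact ⟨r x, h1⟩
  · rintro ⟨x, h1⟩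
    have h3 : lab 1 (r (b x)) = lab 1 x := (hlab _ _).1 (hr _)
    refine ⟨b x, ?_⟩
    rw [← h1]
    exact chain h h3 (j + 1) hj

theorem tc_down (h : Tower (k + 1) lab Q)
    (hlab : ∀ x y, b x = b y ↔ lab 1 x = lab 1 y) (hr : Function.RightInverse r b) {T : ℕ → ℝ}
    (hT : TC (k + 1) lab T) : TC k (fun j c => lab (j + 1) (r c)) (fun j => T (j + 1)) := by
  intro j hj
  obtain ⟨h1, h2⟩ := hT (j + 1) (by omega)
  refine ⟨h1, ?_⟩
  simp only [sub_down h hlab hr j hj]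
  rw [image_down h hlab hr j hj]
  exact h2

theorem tc_zero (h : Tower (k + 1) lab Q)
    (hlab : ∀ x y, b x = b y ↔ lab 1 x = lab 1 y) (hr : Function.RightInverse r b) {T : ℕ → ℝ}
    (hT : TC (k + 1) lab T) : ∑ j ∈ Finset.univ.filter (fun j => 2 ≤ (Bs b j).card),
      Real.exp (-(T 0 * (Bs b j).card)) ≤ 1 := by
  obtain ⟨-, h2⟩ := hT 0 (by omega)
  have hc : ∀ j : Fin q, (Bs b j).card = sub lab 0 (lab 1 (r j)) := by
    intro j
    unfold sub
    rw [Finset.card_image_of_injective _ (fun x y hxy => h.bot x y hxy)]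
    congr 1
    ext x
    rw [mem_Bs, Finset.mem_filter]
    constructor
    · intro h3
      refine ⟨Finset.mem_univ _, ?_⟩
      rw [zero_add, ← hlab, hr]
      exact h3
    · rintro ⟨-, h3⟩
      rw [zero_add, ← hlab, hr] at h3
      exact h3
  refine le_trans (le_of_eq ?_) h2
  refine Finset.sum_bij (fun j _ => lab 1 (r j)) ?_ ?_ ?_ ?_
  · intro j hj
    rw [Finset.mem_filter] at hj ⊢
    refine ⟨Finset.mem_image_of_mem _ (Finset.mem_univ _), ?_⟩
    rw [← hc]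
    exact hj.2
  · intro j _ j' _ hjj
    have h3 : b (r j) = b (r j') := (hlab _ _).2 hjj
    rwa [hr, hr] at h3
  · intro c hc'
    rw [Finset.mem_filter, Finset.mem_image] at hc'
    obtain ⟨⟨x, -, rfl⟩, h4⟩ := hc'
    have h3 : lab 1 (r (b x)) = lab 1 x := (hlab _ _).1 (hr _)
    refine ⟨b x, ?_, h3⟩
    rw [Finset.mem_filter]
    refine ⟨Finset.mem_univ _, ?_⟩
    rw [hc, h3]
    exact h4
  · intro j _
    rw [hc]

/-- the symmetries in the two models of the space -/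
theorem up (h : Tower (k + 1) lab Q)
    (hlab : ∀ x y, b x = b y ↔ lab 1 x = lab 1 y) {D B : ℝ} {N : V (Fin n × Fin 1) → ℝ}
    (hL : LPP (GQ b Q) D B N) : LPQ Q D B := by
  obtain ⟨T, hT⟩ : ∃ T : V (Fin n × Fin 1) ≃ₗᵢ[ℝ] V (Fin n),
      T = LinearIsometryEquiv.piLpCongrLeft 2 ℝ ℝ (Equiv.prodUnique (Fin n) (Fin 1)) := ⟨_, rfl⟩
  have hTa : ∀ (x : V (Fin n × Fin 1)) (j : Fin n), T x j = x (j, 0) := by
    intro x j
    rw [hT, LinearIsometryEquiv.piLpCongrLeft_apply]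
    rfl
  have hTs : ∀ (x : V (Fin n)) (j : Fin n) (c : Fin 1), T.symm x (j, c) = x j := by
    intro x j c
    have hc : c = 0 := Subsingleton.elim _ _
    subst hc
    rw [← hTa, T.apply_symm_apply]
  have hpl : ∀ σ : Equiv.Perm (Fin n), T.symm.trans ((pl σ).trans T) = pm σ := by
    intro σ
    ext x j
    simp only [LinearIsometryEquiv.trans_apply]
    rw [hTa, pl_apply, hTs, pm_apply]
  have hsw : ∀ k l : Fin n, swp (δ := Fin 1) k l = pl (Equiv.swap k l) := by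
    intro k l
    ext x p
    obtain ⟨i, c⟩ := p
    rw [swp_apply, pl_apply, Equiv.symm_swap]
  have h1 := Pool.Agent.TH597.HX.Tr.iso T hL
  refine ⟨fun x => N (T.symm x), lpp_congr h1 ?_ ?_⟩
  · intro ρ hρ
    refine ⟨hρ.nonneg, hρ.meas, hρ.logc, ?_⟩
    rintro g ⟨g', hg', rfl⟩ x
    rcases hg' with ⟨k', l', hkl, rfl⟩ | ⟨σ, hσ, rfl⟩
    · show ρ ((T.symm.trans ((swp (δ := Fin 1) k' l').trans T)) x) = ρ x
      rw [hsw, hpl]
      by_cases he : k' = l'
      · subst he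
        rw [Equiv.swap_self]
        congr 1
      · have h3 : lab 1 k' = lab 1 l' := (hlab _ _).1 hkl
        obtain ⟨σ, hσ, h4, h5, h6⟩ := h.exch 0 (by omega) k' l' h3 fun h7 => he (h.bot _ _ h7)
        have h7 : σ = Equiv.swap k' l' := by
          ext z
          by_cases hz1 : z = k'
          · subst hz1
            rw [Equiv.swap_apply_left, h.bot _ _ h4]
          · by_cases hz2 : z = l'
            · subst hz2
              rw [Equiv.swap_apply_right, h.bot _ _ h5]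
            · rw [Equiv.swap_apply_of_ne_of_ne hz1 hz2,
                h.bot _ _ (h6 z (fun h8 => hz1 (h.bot _ _ h8)) fun h8 => hz2 (h.bot _ _ h8))]
        rw [← h7]
        exact hρ.inv _ ⟨σ, hσ, rfl⟩ x
    · show ρ ((T.symm.trans ((pl σ).trans T)) x) = ρ x
      rw [hpl]
      exact hρ.inv _ ⟨σ, hσ, rfl⟩ x
  · rintro g ⟨σ, hσ, rfl⟩ x
    have h3 := h1.inv (T.symm.trans ((pl σ).trans T)) ⟨pl σ, Or.inr ⟨σ, hσ, rfl⟩, rfl⟩ x
    rw [hpl] at h3
    exact h3

/-- the number of the levels grows -/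
theorem tower : ∃ C : ℝ, 1 ≤ C ∧ ∀ (k n : ℕ), 1 ≤ n → ∀ (lab : ℕ → Fin n → ℕ)
    (Q : Set (Equiv.Perm (Fin n))) (T : ℕ → ℝ), Tower k lab Q → TC k lab T →
    ∀ (q : ℕ) (top : Fin n → Fin q), Function.Surjective top →
    (∀ x y, top x = top y ↔ lab k x = lab k y) → ∀ K : ℝ, 1 ≤ K → PI (pm '' Ind top Q) K →
    LPQ Q (C ^ (k ^ 2) * (K * ∏ j ∈ Finset.range k, (1 + T j) ^ 2)) (C ^ k) := by
  obtain ⟨C₁, hC₁, hin⟩ := Loc.inner Pool.Agent.TH368.hardy0 Pool.Agent.TH720.seq0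
  obtain ⟨C₂, hC₂, hT0⟩ := Pool.Agent.TH148.HX.tail0
  obtain ⟨C, hC⟩ : ∃ C : ℝ, C = 28 + 2010 * (9 * C₁ * C₂ ^ 2 + 1) := ⟨_, rfl⟩
  have hpos : 0 < C₁ * C₂ ^ 2 := by positivity
  have hC28 : 28 ≤ C := by rw [hC]; linarith
  have hCc : 2010 * (9 * C₁ * C₂ ^ 2 + 1) ≤ C := by rw [hC]; linarith
  have hC1 : 1 ≤ C := by linarith
  have hC0 : 0 < C := by linarith
  refine ⟨C, hC1, ?_⟩
  intro k
  induction k with
  | zero =>
    intro n hn lab Q T hTow _ q top htop hlab K hK hPI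
    have hinj : Function.Injective top := fun x y hxy => hTow.bot _ _ ((hlab _ _).1 hxy)
    obtain ⟨φ, hφ⟩ : ∃ φ : Fin n ≃ Fin q, φ = Equiv.ofBijective top ⟨hinj, htop⟩ := ⟨_, rfl⟩
    have hφa : ∀ x, φ x = top x := fun x => by rw [hφ]; rfl
    have hq : 1 ≤ q := by
      have : 0 < q := Fin.pos (top ⟨0, hn⟩)
      exact this
    have h1 : LPQ (Ind top Q) K 1 := ⟨_, pi_lpp hq (by linarith) hPI⟩
    have h2 := h1.map φ.symm
    have h3 : φ.symm.permCongr '' Ind top Q = Q := by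
      ext σ
      constructor
      · rintro ⟨π, ⟨σ', hσ', h4⟩, rfl⟩
        have : φ.symm.permCongr π = σ' := by
          ext x
          rw [Equiv.permCongr_apply, Equiv.symm_symm, hφa, ← h4, ← hφa, Equiv.symm_apply_apply]
        rw [this]
        exact hσ'
      · intro hσ
        refine ⟨φ.permCongr σ, ⟨σ, hσ, fun i => ?_⟩, ?_⟩
        · rw [Equiv.permCongr_apply, ← hφa i, Equiv.symm_apply_apply, hφa]
        · ext x
          rw [Equiv.permCongr_apply, Equiv.permCongr_apply, Equiv.symm_symm,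
            Equiv.symm_apply_apply, Equiv.symm_apply_apply]
    rw [h3] at h2
    refine h2.mono ?_ ?_
    · simp
    · simp
  | succ k ih =>
    intro n hn lab Q T hTow hTC q top htop hlab K hK hPI
    obtain ⟨q₁, b, hb, hbl⟩ := exlab (lab 1)
    obtain ⟨r, hr⟩ := hb.hasRightInverse
    have hq1 : 1 ≤ q₁ := Fin.pos (b ⟨0, hn⟩)
    have hQ : ∀ σ ∈ Q, ∃ π : Equiv.Perm (Fin q₁), ∀ i, b (σ i) = π (b i) := by
      intro σ hσ
      refine ind_of hb σ fun x y => ?_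
      rw [hbl, hbl]
      exact hTow.pres σ hσ 1 (by omega) x y
    have hrb : ∀ x, lab 1 (r (b x)) = lab 1 x := fun x => (hbl _ _).1 (hr _)
    have htr : ∀ x, top (r (b x)) = top x := fun x =>
      (hlab _ _).2 (chain hTow (hrb x) k le_rfl)
    have hInd : Ind (fun c => top (r c)) (Ind b Q) = Ind top Q := by
      ext π'
      constructor
      · rintro ⟨π, ⟨σ, hσ, h1⟩, h2⟩
        refine ⟨σ, hσ, fun x => ?_⟩
        rw [← htr (σ x), h1, ← htr x]
        exact h2 (b x)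
      · rintro ⟨σ, hσ, h1⟩
        obtain ⟨π, hπ⟩ := hQ σ hσ
        refine ⟨π, ⟨σ, hσ, hπ⟩, fun c => ?_⟩
        obtain ⟨x, rfl⟩ := hb c
        show top (r (π (b x))) = π' (top (r (b x)))
        rw [← hπ, htr, htr, h1]
    obtain ⟨N, hN⟩ := ih q₁ hq1 (fun j c => lab (j + 1) (r c)) (Ind b Q) (fun j => T (j + 1))
      (down hTow hb hbl hr) (tc_down hTow hbl hr hTC) q (fun c => top (r c))
      (by
        intro t
        obtain ⟨x, rfl⟩ := htop t
        exact ⟨b x, htr x⟩)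
      (fun c c' => hlab _ _) K hK (by rw [hInd]; exact hPI)
    obtain ⟨Pp, hPp⟩ : ∃ Pp : ℝ, Pp = ∏ j ∈ Finset.range k, (1 + T (j + 1)) ^ 2 := ⟨_, rfl⟩
    have hPp1 : 1 ≤ Pp := by
      rw [hPp]
      refine Finset.prod_induction _ (fun x : ℝ => 1 ≤ x)
        (fun a b ha hb => one_le_mul_of_one_le_of_one_le ha hb) le_rfl fun i hi => ?_
      have := (hTC (i + 1) (by rw [Finset.mem_range] at hi; omega)).1
      exact one_le_pow₀ (by linarith)
    obtain ⟨D, hD⟩ : ∃ D : ℝ, D = C ^ (k ^ 2) * (K * Pp) := ⟨_, rfl⟩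
    obtain ⟨B, hB⟩ : ∃ B : ℝ, B = C ^ k := ⟨_, rfl⟩
    rw [← hPp, ← hD, ← hB] at hN
    have hB1 : 1 ≤ B := by rw [hB]; exact one_le_pow₀ hC1
    have hD1 : 1 ≤ D := by
      rw [hD]
      exact one_le_mul_of_one_le_of_one_le (one_le_pow₀ hC1)
        (one_le_mul_of_one_le_of_one_le hK hPp1)
    have hT00 := (hTC 0 (by omega)).1
    have hstep := WB.step hC₁ hin hC₂ hT0 hb hQ hN (by linarith) hB1 hq1 hT00
      (tc_zero hTow hbl hr hTC) rfl
    have hLQ := up hTow hbl hstep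
    refine hLQ.mono ?_ ?_
    · obtain ⟨Λ, hΛ⟩ : ∃ Λ : ℝ, Λ = 1 + T 0 := ⟨_, rfl⟩
      have hΛ1 : 1 ≤ Λ := by rw [hΛ]; linarith
      have hF : ∏ j ∈ Finset.range (k + 1), (1 + T j) ^ 2 = Pp * Λ ^ 2 := by
        rw [Finset.prod_range_succ', hPp, hΛ]
      rw [hF]
      have e1 : C₁ * (C₂ * (3 + T 0)) ^ 2 + 1 ≤ (9 * C₁ * C₂ ^ 2 + 1) * Λ ^ 2 := by
        have h1 : C₂ * (3 + T 0) ≤ 3 * C₂ * Λ := by
          rw [hΛ]
          nlinarith
        have h2 : 0 ≤ C₂ * (3 + T 0) := by positivity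
        have h3 := pow_le_pow_left₀ h2 h1 2
        have h4 := mul_le_mul_of_nonneg_left h3 hC₁.le
        have h5 : 1 ≤ Λ ^ 2 := one_le_pow₀ hΛ1
        calc C₁ * (C₂ * (3 + T 0)) ^ 2 + 1
            ≤ C₁ * (3 * C₂ * Λ) ^ 2 + Λ ^ 2 := add_le_add h4 h5
          _ = (9 * C₁ * C₂ ^ 2 + 1) * Λ ^ 2 := by ring
      have e2 : 10 + 50 * D * (36 * B ^ 2 + 4) ≤ 2010 * (D * B ^ 2) := by
        have h1 : 1 ≤ B ^ 2 := one_le_pow₀ hB1
        have h2 : D ≤ D * B ^ 2 := by nlinarith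
        nlinarith
      have e3 : (10 + 50 * D * (36 * B ^ 2 + 4)) * (C₁ * (C₂ * (3 + T 0)) ^ 2 + 1) ≤
          2010 * (D * B ^ 2) * ((9 * C₁ * C₂ ^ 2 + 1) * Λ ^ 2) :=
        mul_le_mul e2 e1 (by positivity) (by positivity)
      refine e3.trans ?_
      have e4 : 2010 * (D * B ^ 2) * ((9 * C₁ * C₂ ^ 2 + 1) * Λ ^ 2) =
          (2010 * (9 * C₁ * C₂ ^ 2 + 1)) * (D * B ^ 2 * Λ ^ 2) := by ring
      rw [e4]
      have e5 : 0 ≤ D * B ^ 2 * Λ ^ 2 := by positivity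
      refine (mul_le_mul_of_nonneg_right hCc e5).trans (le_of_eq ?_)
      rw [hD, hB]
      ring
    · rw [hB]
      have h1 : 0 ≤ C ^ k := by positivity
      calc 28 * C ^ k ≤ C * C ^ k := mul_le_mul_of_nonneg_right hC28 h1
        _ = C ^ (k + 1) := by ring

end Tow

end Pool.Agent.X43.KR
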