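import Pool.Agent.X43.KR.Blk

/-!
# The norm for densities symmetric inside blocks of arbitrary sizes
-/

set_option autoImplicit false

namespace Pool.Agent.X43.KR

open MeasureTheory Set Filter
open scoped ENNReal InnerProductSpace Topology
open Pool.Agent.H212R2.KLS (mu Bdd)
open Pool.Agent.H888R2.KT (LC St tw tw_deriv tw_fub tw_lc)
open Pool.Agent.TH594.KP (V GD GG swp P Bs ev mem_Bs swp_apply SC card_Bs_pos)
open Pool.Agent.TH597.HX
open Pool.Agent.TH597.HX.Wr (pm pm_apply exch1)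
open Pool.Agent.TH597.HX.Arr (dev_nonneg dev_cont dev_add dev_smul dev_swp)
open Loc (ee)
open Blk

namespace WB

variable {ι : Type} [Fintype ι] [DecidableEq ι] {q : ℕ}

/-- the normalised block sums -/
noncomputable def pj (b : ι → Fin q) (x : V (ι × Fin 1)) : V (Fin q) :=
  WithLp.toLp 2 fun j => ⟪ee b j, x⟫_ℝ

omit [DecidableEq ι] in
theorem pj_apply (b : ι → Fin q) (x : V (ι × Fin 1)) (j : Fin q) : pj b x j = ⟪ee b j, x⟫_ℝ := rfl

omit [DecidableEq ι] in
theorem pj_add (b : ι → Fin q) (x y : V (ι × Fin 1)) : pj b (x + y) = pj b x + pj b y := by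
  ext j
  simp only [pj_apply, PiLp.add_apply, inner_add_right]

omit [DecidableEq ι] in
theorem pj_smul (b : ι → Fin q) (c : ℝ) (x : V (ι × Fin 1)) : pj b (c • x) = c • pj b x := by
  ext j
  simp only [pj_apply, PiLp.smul_apply, real_inner_smul_right, smul_eq_mul]

omit [DecidableEq ι] in
theorem pj_cont (b : ι → Fin q) : Continuous (pj b) := by
  unfold pj
  fun_prop

theorem pj_swp (b : ι → Fin q) (k l : ι) (hkl : b k = b l) (x : V (ι × Fin 1)) :
    pj b (swp k l x) = pj b x := by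
  ext j
  rw [pj_apply, pj_apply]
  have h1 := (swp (δ := Fin 1) k l).inner_map_map (ee b j) x
  have h2 : swp k l (ee b j) = ee b j := Pool.Agent.TH594.KP.swp_ev b _ k l hkl
  rw [h2] at h1
  exact h1

theorem pj_pl {b : ι → Fin q} {σ : Equiv.Perm ι} {π : Equiv.Perm (Fin q)}
    (h : ∀ i, b (σ i) = π (b i)) (x : V (ι × Fin 1)) : pj b (pl σ x) = pm π (pj b x) := by
  ext j
  rw [pm_apply, pj_apply, pj_apply]
  have h1 := (pl σ).inner_map_map (ee b (π.symm j)) x
  rw [pl_ee h, Equiv.apply_symm_apply] at h1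
  exact h1

/-- the norm -/
noncomputable def NB (b : ι → Fin q) (N : V (Fin q) → ℝ) (A : ℝ) (x : V (ι × Fin 1)) : ℝ :=
  max (N (pj b x)) (⨆ β, dev b β x / (A * ((Bs b β).card : ℝ) ^ 2))

omit [DecidableEq ι] in
theorem cardp {b : ι → Fin q} (hb : Function.Surjective b) (β : Fin q) :
    (1 : ℝ) ≤ (Bs b β).card := by
  have := card_Bs_pos hb β
  exact_mod_cast this

omit [DecidableEq ι] in
theorem NB_le {b : ι → Fin q} (hb : Function.Surjective b) (hq : 1 ≤ q) (N : V (Fin q) → ℝ)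
    {A : ℝ} (hA : 0 < A) (x : V (ι × Fin 1)) (r : ℝ) :
    NB b N A x ≤ r ↔ N (pj b x) ≤ r ∧ ∀ β, dev b β x ≤ r * (A * ((Bs b β).card : ℝ) ^ 2) := by
  have : Nonempty (Fin q) := ⟨⟨0, hq⟩⟩
  unfold NB
  rw [max_le_iff, ciSup_le_iff (Set.finite_range _).bddAbove]
  refine and_congr_right fun _ => forall_congr' fun β => ?_
  have := cardp hb β
  rw [div_le_iff₀ (by positivity)]

variable {G : Set (V (Fin q) ≃ₗᵢ[ℝ] V (Fin q))} {D B : ℝ} {N : V (Fin q) → ℝ}
  {b : ι → Fin q} {A : ℝ}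

omit [DecidableEq ι] in
theorem NB_add (h : LPP G D B N) (hb : Function.Surjective b) (hq : 1 ≤ q) (hA : 0 < A)
    (x y : V (ι × Fin 1)) : NB b N A (x + y) ≤ NB b N A x + NB b N A y := by
  obtain ⟨h1, h2⟩ := (NB_le hb hq N hA x _).1 le_rfl
  obtain ⟨h3, h4⟩ := (NB_le hb hq N hA y _).1 le_rfl
  refine (NB_le hb hq N hA _ _).2 ⟨?_, fun β => ?_⟩
  · rw [pj_add]
    exact (h.add _ _).trans (add_le_add h1 h3)
  · rw [add_mul]
    exact (dev_add _ β x y).trans (add_le_add (h2 β) (h4 β))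

omit [DecidableEq ι] in
theorem NB_nonneg (h : LPP G D B N) (hb : Function.Surjective b) (hq : 1 ≤ q) (hA : 0 < A)
    (x : V (ι × Fin 1)) : 0 ≤ NB b N A x := by
  obtain ⟨h1, -⟩ := (NB_le hb hq N hA x _).1 le_rfl
  exact (Lpp.nonneg h _).trans h1

omit [DecidableEq ι] in
theorem NB_smul_le (h : LPP G D B N) (hb : Function.Surjective b) (hq : 1 ≤ q) (hA : 0 < A)
    (c : ℝ) (x : V (ι × Fin 1)) : NB b N A (c • x) ≤ |c| * NB b N A x := by
  obtain ⟨h1, h2⟩ := (NB_le hb hq N hA x _).1 le_rfl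
  refine (NB_le hb hq N hA _ _).2 ⟨?_, fun β => ?_⟩
  · rw [pj_smul, h.smul]
    exact mul_le_mul_of_nonneg_left h1 (abs_nonneg _)
  · rw [dev_smul, mul_assoc]
    exact mul_le_mul_of_nonneg_left (h2 β) (abs_nonneg _)

omit [DecidableEq ι] in
theorem NB_smul (h : LPP G D B N) (hb : Function.Surjective b) (hq : 1 ≤ q) (hA : 0 < A)
    (c : ℝ) (x : V (ι × Fin 1)) : NB b N A (c • x) = |c| * NB b N A x := by
  refine le_antisymm (NB_smul_le h hb hq hA c x) ?_
  by_cases hc : c = 0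
  · rw [hc, abs_zero, zero_mul]
    exact NB_nonneg h hb hq hA _
  · have h1 := NB_smul_le h hb hq hA c⁻¹ (c • x)
    rw [smul_smul, inv_mul_cancel₀ hc, one_smul] at h1
    have h2 := mul_le_mul_of_nonneg_left h1 (abs_nonneg c)
    rwa [← mul_assoc, ← abs_mul, mul_inv_cancel₀ hc, abs_one, one_mul] at h2

omit [DecidableEq ι] in
theorem NB_closed (h : LPP G D B N) (hb : Function.Surjective b) (hq : 1 ≤ q) (hA : 0 < A)
    (r : ℝ) : IsClosed {x : V (ι × Fin 1) | NB b N A x ≤ r} := by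
  have h1 : {x : V (ι × Fin 1) | NB b N A x ≤ r} =
      {x | N (pj b x) ≤ r} ∩ ⋂ β, {x | dev b β x ≤ r * (A * ((Bs b β).card : ℝ) ^ 2)} := by
    ext x
    rw [mem_inter_iff, mem_iInter]
    exact NB_le hb hq N hA x r
  rw [h1]
  exact ((h.closed r).preimage (pj_cont b)).inter
    (isClosed_iInter fun β => isClosed_le (dev_cont _ β) continuous_const)

theorem NB_inv {Q : Set (Equiv.Perm ι)}
    (hQ : ∀ σ ∈ Q, ∃ π : Equiv.Perm (Fin q), ∀ i, b (σ i) = π (b i))
    (h : LPP (pm '' Ind b Q) D B N) (hb : Function.Surjective b) (hq : 1 ≤ q)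
    (hA : 0 < A) : ∀ g ∈ GQ b Q, ∀ x : V (ι × Fin 1), NB b N A (g x) = NB b N A x := by
  have key : ∀ g ∈ GQ b Q, ∀ (x : V (ι × Fin 1)) (r : ℝ), NB b N A (g x) ≤ r ↔ NB b N A x ≤ r := by
    intro g hg x r
    rw [NB_le hb hq N hA, NB_le hb hq N hA]
    rcases hg with ⟨k, l, hkl, rfl⟩ | ⟨σ, hσ, rfl⟩
    · rw [pj_swp b k l hkl]
      refine and_congr_right fun _ => forall_congr' fun β => ?_
      rw [dev_swp _ β k l hkl]
    · obtain ⟨π, hπ⟩ := hQ σ hσ
      rw [pj_pl hπ, h.inv _ ⟨π, ⟨σ, hσ, hπ⟩, rfl⟩]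
      refine and_congr_right fun _ => ?_
      constructor
      · intro h1 β
        have h2 := h1 (π β)
        rw [dev_pl hπ, card_eq hπ] at h2
        exact h2
      · intro h1 β
        obtain ⟨β', rfl⟩ := π.surjective β
        rw [dev_pl hπ, card_eq hπ]
        exact h1 _
  intro g hg x
  exact le_antisymm ((key g hg x _).2 le_rfl) ((key g hg x _).1 le_rfl)

omit [DecidableEq ι] in
theorem NB_bdd (h : LPP G D B N) (hb : Function.Surjective b) (hq : 1 ≤ q) (hA : 0 < A) :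
    ∃ R : ℝ, ∀ x : V (ι × Fin 1), ‖x‖ ≤ R * NB b N A x := by
  obtain ⟨R, hR⟩ := h.bdd
  obtain ⟨M, hM⟩ : ∃ M : ℝ, M = Fintype.card ι := ⟨_, rfl⟩
  have hM0 : 0 ≤ M := by rw [hM]; positivity
  refine ⟨Fintype.card (ι × Fin 1) * (M * A + |R|), fun x => ?_⟩
  obtain ⟨h1, h2⟩ := (NB_le hb hq N hA x _).1 le_rfl
  have hN := NB_nonneg h hb hq hA x
  have hcoord : ∀ p : ι × Fin 1, |x p| ≤ (M * A + |R|) * NB b N A x := by
    rintro ⟨i, c⟩
    have hc : c = 0 := Subsingleton.elim _ _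
    subst hc
    obtain ⟨m, hm⟩ : ∃ m : ℝ, m = (Bs b (b i)).card := ⟨_, rfl⟩
    have hm1 : 1 ≤ m := by rw [hm]; exact cardp hb (b i)
    have hm0 : (0 : ℝ) < m := by linarith
    have hmM : m ≤ M := by
      rw [hm, hM]
      exact_mod_cast Finset.card_le_univ _
    have e1 : m * x (i, 0) =
        ∑ j ∈ Bs b (b i), (x (i, 0) - x (j, 0)) + ∑ j ∈ Bs b (b i), x (j, 0) := by
      rw [← Finset.sum_add_distrib, hm]
      simp
    have e2 : ∑ j ∈ Bs b (b i), x (j, 0) = Real.sqrt m * pj b x (b i) := by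
      rw [pj_apply]
      unfold ee
      rw [Pool.Agent.TH594.KP.inner_ev, hm]
      have h3 : Real.sqrt ((Bs b (b i)).card : ℝ) ≠ 0 := by
        rw [← hm]
        exact (Real.sqrt_pos.2 hm0).ne'
      field_simp
    have e3 : |∑ j ∈ Bs b (b i), (x (i, 0) - x (j, 0))| ≤ dev b (b i) x := by
      refine (Finset.abs_sum_le_sum_abs _ _).trans ?_
      unfold dev
      exact Finset.single_le_sum
        (f := fun i : ι => ∑ j ∈ Bs b (b _), |x (i, 0) - x (j, 0)|)
        (fun _ _ => Finset.sum_nonneg fun _ _ => abs_nonneg _) ((mem_Bs _ _ _).2 rfl)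
    have e4 : |pj b x (b i)| ≤ |R| * NB b N A x := by
      have h3 : |pj b x (b i)| ≤ ‖pj b x‖ := by
        have := PiLp.norm_apply_le (pj b x) (b i)
        rwa [Real.norm_eq_abs] at this
      refine h3.trans ((hR _).trans ?_)
      have h4 : R * N (pj b x) ≤ |R| * N (pj b x) :=
        mul_le_mul_of_nonneg_right (le_abs_self R) (Lpp.nonneg h _)
      exact h4.trans (mul_le_mul_of_nonneg_left h1 (abs_nonneg R))
    have hsm : Real.sqrt m ≤ m := by
      rw [Real.sqrt_le_left (by linarith)]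
      nlinarith
    have e5 : m * |x (i, 0)| ≤ m * ((M * A + |R|) * NB b N A x) := by
      have h5 : m * |x (i, 0)| = |m * x (i, 0)| := by
        rw [abs_mul, abs_of_pos hm0]
      rw [h5, e1, e2]
      refine (abs_add_le _ _).trans ?_
      have h6 : |Real.sqrt m * pj b x (b i)| ≤ m * (|R| * NB b N A x) := by
        rw [abs_mul, abs_of_nonneg (Real.sqrt_nonneg _)]
        exact mul_le_mul hsm e4 (abs_nonneg _) hm0.le
      have h7 : dev b (b i) x ≤ m * (M * A * NB b N A x) := by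
        refine (h2 (b i)).trans ?_
        rw [← hm]
        have h8 : 0 ≤ NB b N A x * A * m := by positivity
        have h9 := mul_le_mul_of_nonneg_left hmM h8
        calc NB b N A x * (A * m ^ 2) = NB b N A x * A * m * m := by ring
          _ ≤ NB b N A x * A * m * M := h9
          _ = _ := by ring
      calc |∑ j ∈ Bs b (b i), (x (i, 0) - x (j, 0))| + |Real.sqrt m * pj b x (b i)|
          ≤ m * (M * A * NB b N A x) + m * (|R| * NB b N A x) := add_le_add (e3.trans h7) h6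
        _ = _ := by ring
    exact le_of_mul_le_mul_left e5 hm0
  have h3 : ‖x‖ ≤ ∑ p, |x p| := by
    have h4 : ‖x‖ ^ 2 ≤ (∑ p, |x p|) ^ 2 := by
      rw [EuclideanSpace.real_norm_sq_eq]
      have h5 := Finset.sum_sq_le_sq_sum_of_nonneg (s := (Finset.univ : Finset (ι × Fin 1)))
        (f := fun p => |x p|) (fun p _ => abs_nonneg _)
      simpa only [sq_abs] using h5
    exact (abs_le_of_sq_le_sq' h4 (Finset.sum_nonneg fun p _ => abs_nonneg _)).2
  refine h3.trans ((Finset.sum_le_sum fun p _ => hcoord p).trans (le_of_eq ?_))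
  rw [Finset.sum_const, Finset.card_univ, nsmul_eq_mul]
  ring

end WB

end Pool.Agent.X43.KR
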