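import Pool.Agent.X43.KR.WB

/-!
# The local Poincaré property goes up from the blocks to the coordinates
-/

set_option autoImplicit false

namespace Pool.Agent.X43.KR

open MeasureTheory Set Filter
open scoped ENNReal InnerProductSpace Topology
open Pool.Agent.H212R2.KLS (mu Bdd)
open Pool.Agent.H888R2.KT (LC St tw)
open Pool.Agent.H888R2.KT.V5x (tw_pos tw_cont)
open Pool.Agent.H888R2.KT.V4bx (w)
open Pool.Agent.H888R2.KT.G2x (mu_indicator integral_mu_mul mu_mono intg)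
open Pool.Agent.TH594.KP (V GD GG swp P Bs ev mem_Bs swp_apply SC card_Bs_pos gd_indicator gd_ball
  gd_smul)
open Pool.Agent.TH597.HX
open Pool.Agent.TH597.HX.Out Pool.Agent.TH597.HX.Lpp Pool.Agent.TH597.HX.Step
open Pool.Agent.TH597.HX.Wr (pm pm_apply exch1 In)
open Pool.Agent.TH597.HX.Arr (dev_nonneg dev_cont dev_add dev_smul dev_swp)
open Loc (ee)
open Blk

namespace WB

variable {ι : Type} [Fintype ι] [DecidableEq ι] {q : ℕ} {D B : ℝ} {N : V (Fin q) → ℝ}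
  {b : ι → Fin q} {Q : Set (Equiv.Perm ι)}

/-- the centre of the tilt -/
theorem inv_gq (ρ : V (ι × Fin 1) → ℝ) (hρ : GD (GQ b Q) ρ) (K : ℝ) :
    ∀ g ∈ pm '' Ind b Q, ∀ τ, ∫ x, tw (ee b) K (g τ) x ∂(mu ρ) =
      ∫ x, tw (ee b) K τ x ∂(mu ρ) := by
  rintro g ⟨π, ⟨σ, hσ, hσπ⟩, rfl⟩ τ
  exact exch1 ρ hρ.meas (ee b) K π (pl σ) (hρ.inv _ (Or.inr ⟨σ, hσ, rfl⟩)) (pl_ee hσπ) τ

/-- the Poincare inequality -/
theorem poi {C : ℝ} (hC : 0 < C) (hin : In C) (hb : Function.Surjective b)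
    (h : LPP (pm '' Ind b Q) D B N) (hD : 0 < D) (hB : 0 < B)
    (hq : 1 ≤ q) {A : ℝ} (hA : 0 < A) (ρ : V (ι × Fin 1) → ℝ) (hρ : GD (GQ b Q) ρ)
    (hLC : LC ρ) (a s : ℝ) (ha : 0 < a) (hs : 0 < s)
    (hmom : ∀ θ : V (ι × Fin 1), ∫ x, ⟪θ, x⟫_ℝ ^ 2 ∂(mu ρ) ≤ s * ‖θ‖ ^ 2 * (mu ρ univ).toReal)
    (hsupp : ∀ x, ρ x ≠ 0 → NB b N A x ≤ a) (f : V (ι × Fin 1) → ℝ)
    (hf : ContDiff ℝ 1 f) :
    ∃ c : ℝ, ∫ x, (f x - c) ^ 2 ∂(mu ρ) ≤
      (10 + 50 * D * (36 * B ^ 2 + 4)) * (C * A ^ 2 + 1) * (a ^ 2 + s) *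
        ∫ x, ‖fderiv ℝ f x‖ ^ 2 ∂(mu ρ) := by
  have hne : NeZero (mu ρ) := ⟨hLC.ne⟩
  have hfi : IsFiniteMeasure (mu ρ) := ⟨lt_top_iff_ne_top.2 hLC.fin⟩
  have hbd := ball_of hLC.meas hLC.bdd
  have horth := Loc.orth_ee hb
  obtain ⟨K, hK⟩ : ∃ K : ℝ, K = C * (A * a) ^ 2 + s := ⟨_, rfl⟩
  have hK0 : 0 < K := by rw [hK]; positivity
  obtain ⟨c, hc⟩ : ∃ c : ℝ, c = a + 3 * (B * Real.sqrt (2 * K)) := ⟨_, rfl⟩
  have hsq : Real.sqrt (2 * K) ^ 2 = 2 * K := Real.sq_sqrt (by positivity)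
  have hsq0 : 0 ≤ Real.sqrt (2 * K) := Real.sqrt_nonneg _
  have hc0 : 0 < c := by rw [hc]; positivity
  have hs1 : ∀ x, ρ x ≠ 0 → N (pj b x) ≤ a ∧
      ∀ β, dev b β x ≤ a * (A * ((Bs b β).card : ℝ) ^ 2) :=
    fun x hx => (NB_le hb hq N hA x a).1 (hsupp x hx)
  have hGG := GG_pos q hK0
  have hlow : ∀ x, ρ x ≠ 0 → GG q K / 2 ≤
      ∫ τ in {τ : V (Fin q) | N τ ≤ c}, tw (ee b) K τ x := by
    intro x hx
    have h1 := lowN h K hK0 (fun j => ⟪ee b j, x⟫_ℝ) a (hs1 x hx).1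
    rw [← hc] at h1
    have h2 : GG q K / 2 ≤ 3 / 4 * GG q K := by linarith
    exact h2.trans h1
  have hUm : MeasurableSet {τ : V (Fin q) | N τ ≤ c} := (h.closed c).measurableSet
  obtain ⟨c₀, hc₀⟩ := Unt.unt (mu ρ) hbd (ee b) horth K hK0 {τ : V (Fin q) | N τ ≤ c} hUm
    (D * (c ^ 2 + 2 * (s + K))) (by positivity)
    (fun M hM => outN h ρ hLC (ee b) horth K s c hK0 hs hc0 hmom (inv_gq ρ hρ K) hlow M hM)
    (by filter_upwards [ae_ne hLC.meas] with x hx; exact hlow x hx)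
    (fun τ f hf => hin hb ρ (gq_gg hρ) hLC (A * a) (by positivity)
      (fun x hx β => by
        refine ((hs1 x hx).2 β).trans (le_of_eq (by ring))) K hK0 (by rw [hK]; linarith) τ f hf)
    f hf
  refine ⟨c₀, hc₀.trans (mul_le_mul_of_nonneg_right ?_ (integral_nonneg fun x => by positivity))⟩
  obtain ⟨R, hR⟩ : ∃ R : ℝ, R = a ^ 2 + s := ⟨_, rfl⟩
  obtain ⟨k, hk⟩ : ∃ k : ℝ, k = C * A ^ 2 + 1 := ⟨_, rfl⟩
  have hR0 : 0 < R := by rw [hR]; positivity
  have hk1 : 1 ≤ k := by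
    rw [hk]
    have : 0 < C * A ^ 2 := by positivity
    linarith
  rw [← hR, ← hk]
  have e1 : K ≤ k * R := by
    rw [hK, hk, hR]
    have : 0 ≤ C * A ^ 2 * s := by positivity
    nlinarith [sq_nonneg a]
  have e2 : c ^ 2 ≤ 2 * a ^ 2 + 36 * B ^ 2 * K := by
    rw [hc]
    have h3 : (3 * (B * Real.sqrt (2 * K))) ^ 2 = 18 * B ^ 2 * K := by
      calc (3 * (B * Real.sqrt (2 * K))) ^ 2 = 9 * B ^ 2 * Real.sqrt (2 * K) ^ 2 := by ring
        _ = _ := by rw [hsq]; ring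
    nlinarith [sq_nonneg (a - 3 * (B * Real.sqrt (2 * K)))]
  have e3 : c ^ 2 + 2 * (s + K) ≤ (36 * B ^ 2 + 4) * (k * R) := by
    have h4 : c ^ 2 + 2 * (s + K) ≤ 2 * R + (36 * B ^ 2 + 2) * K := by
      rw [hR]
      linarith
    have h5 : (36 * B ^ 2 + 2) * K ≤ (36 * B ^ 2 + 2) * (k * R) :=
      mul_le_mul_of_nonneg_left e1 (by positivity)
    have h6 : R ≤ k * R := by nlinarith
    linarith
  have e4 : D * (c ^ 2 + 2 * (s + K)) ≤ D * ((36 * B ^ 2 + 4) * (k * R)) :=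
    mul_le_mul_of_nonneg_left e3 hD.le
  calc 2 * (5 * K + 25 * (D * (c ^ 2 + 2 * (s + K))))
      ≤ 2 * (5 * (k * R) + 25 * (D * ((36 * B ^ 2 + 4) * (k * R)))) := by linarith
    _ = (10 + 50 * D * (36 * B ^ 2 + 4)) * k * R := by ring

/-- the bound for the norm of the block sums -/
theorem tail_pj (hb : Function.Surjective b)
    (h : LPP (pm '' Ind b Q) D B N) (hB : 0 < B) (ρ : V (ι × Fin 1) → ℝ)
    (hρ : GD (GQ b Q) ρ) (hbd : Bdd ρ) (h1 : mu ρ univ = 1) (s : ℝ) (hs : 0 < s)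
    (hmom : ∀ θ : V (ι × Fin 1), ∫ x, ⟪θ, x⟫_ℝ ^ 2 ∂(mu ρ) ≤ s * ‖θ‖ ^ 2) :
    (mu ρ).real {x : V (ι × Fin 1) | 28 * B * Real.sqrt s < N (pj b x)} ≤ 1 / 8 := by
  have hprob : IsProbabilityMeasure (mu ρ) := ⟨h1⟩
  have hLC : LC ρ := ⟨hρ.nonneg, hρ.meas, hρ.logc, hbd, by rw [h1]; exact ENNReal.one_ne_top,
    fun h0 => by rw [h0] at h1; simp at h1⟩
  have hball := ball_of hLC.meas hLC.bdd
  have horth := Loc.orth_ee hb
  have hmom' : ∀ θ : V (ι × Fin 1),
      ∫ x, ⟪θ, x⟫_ℝ ^ 2 ∂(mu ρ) ≤ s * ‖θ‖ ^ 2 * (mu ρ univ).toReal := by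
    intro θ
    rw [h1, ENNReal.toReal_one, mul_one]
    exact hmom θ
  obtain ⟨hZpos, hZG, hZc, hZi, hZI, hZ2i, hZ2⟩ := zfacts (G := pm '' Ind b Q) ρ hLC (ee b) horth
    s s hs hmom' (inv_gq ρ hρ s)
  rw [h1, ENNReal.toReal_one, mul_one] at hZI
  simp only [h1, ENNReal.toReal_one, mul_one] at hZ2
  have hGG : 0 < GG q s := GG_pos q hs
  have hzt := ztail h (fun τ : V (Fin q) => ∫ x, tw (ee b) s τ x ∂(mu ρ)) hZG hZi (GG q s) hZI hGG
    (s + s) (by positivity) hZ2i hZ2 7 (by norm_num)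
  obtain ⟨T, hT⟩ : ∃ T : ℝ, T = 14 * B * Real.sqrt s := ⟨_, rfl⟩
  have e1 : 7 * (B * Real.sqrt (2 * (s + s))) = T := by
    have h2 : Real.sqrt (2 * (s + s)) = 2 * Real.sqrt s := by
      have h3 : 2 * (s + s) = 2 ^ 2 * s := by ring
      rw [h3, Real.sqrt_mul (by norm_num), Real.sqrt_sq (by norm_num)]
    rw [h2, hT]
    ring
  rw [e1] at hzt
  have e2 : 28 * B * Real.sqrt s = 2 * T := by rw [hT]; ring
  rw [e2]
  have hexp : Real.exp (-(7 + 1) / 2) ≤ 1 / 16 := by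
    have h3 := exp_two 4
    have e : (-(7 + 1) / 2 : ℝ) = -((4 : ℕ) : ℝ) := by norm_num
    rw [e]
    refine h3.trans (le_of_eq (by norm_num))
  have hET : MeasurableSet {τ : V (Fin q) | T < N τ} := measurableSet_lt measurable_const (meas h)
  have hEm : MeasurableSet {x : V (ι × Fin 1) | 2 * T < N (pj b x)} :=
    measurableSet_lt measurable_const ((meas h).comp (pj_cont b).measurable)
  have hfub := Unt.fubU (mu ρ) hball (ee b) s hs (fun _ => (1 : ℝ)) continuous_const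
    {τ : V (Fin q) | T < N τ}
  simp only [one_mul] at hfub
  rw [hfub] at hzt
  -- lower bound
  have hcont : Continuous (fun p : V (ι × Fin 1) × V (Fin q) => tw (ee b) s p.2 p.1) := by
    unfold tw
    refine Real.continuous_exp.comp (Continuous.neg (Continuous.div_const ?_ _))
    refine continuous_finsetSum _ fun j _ => ?_
    have h1 : Continuous fun p : V (ι × Fin 1) × V (Fin q) =>
        ⟪ee b j, p.1⟫_ℝ := continuous_const.inner continuous_fst
    have h2 : Continuous fun p : V (ι × Fin 1) × V (Fin q) => p.2 j := by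
      fun_prop
    exact (h1.sub h2).pow 2
  have hmeas : AEStronglyMeasurable (fun x => ∫ τ in {τ : V (Fin q) | T < N τ},
      tw (ee b) s τ x) (mu ρ) :=
    (hcont.stronglyMeasurable.integral_prod_right'
      (ν := (volume : Measure (V (Fin q))).restrict {τ : V (Fin q) | T < N τ})).aestronglyMeasurable
  have hi : Integrable (fun x => ∫ τ in {τ : V (Fin q) | T < N τ}, tw (ee b) s τ x)
      (mu ρ) := by
    refine Integrable.of_bound hmeas (GG q s) (Filter.Eventually.of_forall fun x => ?_)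
    obtain ⟨h3, h4⟩ := n1 (n := q) s hs fun j => ⟪ee b j, x⟫_ℝ
    rw [Real.norm_of_nonneg (integral_nonneg fun τ => (tw_pos (ee b) s τ x).le), ← h4]
    exact setIntegral_le_integral h3
      (Filter.Eventually.of_forall fun τ => (tw_pos (ee b) s τ x).le)
  have hlow : 3 / 4 * GG q s * (mu ρ).real {x : V (ι × Fin 1) | 2 * T < N (pj b x)} ≤
      ∫ x, (∫ τ in {τ : V (Fin q) | T < N τ}, tw (ee b) s τ x) ∂(mu ρ) := by
    have h2 : ∫ x, ({x : V (ι × Fin 1) | 2 * T < N (pj b x)}).indicator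
        (fun _ => 3 / 4 * GG q s) x ∂(mu ρ) =
        3 / 4 * GG q s * (mu ρ).real {x : V (ι × Fin 1) | 2 * T < N (pj b x)} := by
      rw [integral_indicator_const _ hEm, smul_eq_mul, mul_comm]
    rw [← h2]
    refine integral_mono ((integrable_const _).indicator hEm) hi fun x => ?_
    show indicator _ (fun _ => 3 / 4 * GG q s) x ≤ _
    by_cases hx : x ∈ {x : V (ι × Fin 1) | 2 * T < N (pj b x)}
    · rw [indicator_of_mem hx]
      have hx' : 2 * T < N (pj b x) := hx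
      refine lowE h s hs (fun j => ⟪ee b j, x⟫_ℝ) {τ : V (Fin q) | T < N τ} hET
        fun τ hτ => ?_
      show T < N (τ + pj b x)
      have h3 : N τ ≤ T := by
        refine hτ.trans ?_
        have h4 : Real.sqrt (2 * s) ≤ 2 * Real.sqrt s := by
          rw [Real.sqrt_mul (by norm_num)]
          have h5 : Real.sqrt 2 ≤ 2 := by
            rw [Real.sqrt_le_left (by norm_num)]
            norm_num
          exact mul_le_mul_of_nonneg_right h5 (Real.sqrt_nonneg _)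
        rw [hT]
        have h5 : B * Real.sqrt (2 * s) ≤ B * (2 * Real.sqrt s) :=
          mul_le_mul_of_nonneg_left h4 hB.le
        have h6 : 0 ≤ B * Real.sqrt s := mul_nonneg hB.le (Real.sqrt_nonneg _)
        nlinarith
      have h4 := h.add (τ + pj b x) (-τ)
      rw [Lpp.neg h, add_neg_cancel_comm] at h4
      linarith
    · rw [indicator_of_notMem hx]
      exact integral_nonneg fun τ => (tw_pos (ee b) s τ x).le
  have h2 := hlow.trans hzt
  have h3 : Real.exp (-(7 + 1) / 2) * GG q s ≤ 1 / 16 * GG q s :=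
    mul_le_mul_of_nonneg_right hexp hGG.le
  have h4 : GG q s * (3 / 4 * (mu ρ).real {x : V (ι × Fin 1) | 2 * T < N (pj b x)}) ≤
      GG q s * (1 / 16) := by
    linarith
  have h5 := le_of_mul_le_mul_left h4 hGG
  linarith

/-- **The step.** -/
theorem step {C C₂ : ℝ} (hC : 0 < C) (hin : In C) (hC₂ : 0 < C₂) (hT : Core.T0 C₂)
    (hb : Function.Surjective b)
    (hQ : ∀ σ ∈ Q, ∃ π : Equiv.Perm (Fin q), ∀ i, b (σ i) = π (b i))
    (h : LPP (pm '' Ind b Q) D B N) (hD : 0 < D) (hB : 1 ≤ B) (hq : 1 ≤ q) {T : ℝ} (hT0 : 0 ≤ T)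
    (hsum : ∑ j ∈ Finset.univ.filter (fun j => 2 ≤ (Bs b j).card),
      Real.exp (-(T * (Bs b j).card)) ≤ 1) {A : ℝ} (hA : A = C₂ * (3 + T)) :
    LPP (GQ b Q) ((10 + 50 * D * (36 * B ^ 2 + 4)) * (C * A ^ 2 + 1)) (28 * B)
      (NB b N A) := by
  have hB0 : 0 < B := by linarith
  have hA0 : 0 < A := by rw [hA]; positivity
  refine ⟨NB_add h hb hq hA0, NB_smul h hb hq hA0, NB_closed h hb hq hA0, NB_bdd h hb hq hA0,
    NB_inv hQ h hb hq hA0, ?_, ?_⟩
  · intro ρ hρ hLC a s ha hs hmom hsupp f hf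
    exact poi hC hin hb h hD hB0 hq hA0 ρ hρ hLC a s ha hs hmom hsupp f hf
  · intro ρ hρ hbd h1 s hs hmom
    have hprob : IsProbabilityMeasure (mu ρ) := ⟨h1⟩
    have hss : 0 < Real.sqrt s := Real.sqrt_pos.2 hs
    have hms : MeasurableSet {x : V (ι × Fin 1) | NB b N A x ≤ 28 * B * Real.sqrt s} :=
      (NB_closed h hb hq hA0 _).measurableSet
    have hcompl := probReal_compl_eq_one_sub (μ := mu ρ) hms
    obtain ⟨J, hJ⟩ : ∃ J : Finset (Fin q),
        J = Finset.univ.filter (fun j => 2 ≤ (Bs b j).card) := ⟨_, rfl⟩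
    rw [← hJ] at hsum
    have hsub : {x : V (ι × Fin 1) | NB b N A x ≤ 28 * B * Real.sqrt s}ᶜ ⊆
        {x : V (ι × Fin 1) | 28 * B * Real.sqrt s < N (pj b x)} ∪ ⋃ β ∈ J,
          {x : V (ι × Fin 1) | (3 + T) * (C₂ * Real.sqrt s) * ((Bs b β).card : ℝ) ^ 2 <
            dev b β x} := by
      intro x hx
      by_contra hc
      refine hx ((NB_le hb hq N hA0 x _).2 ⟨?_, fun β => ?_⟩)
      · by_contra h2
        exact hc (Or.inl (not_le.1 h2))
      · by_cases hβ : 2 ≤ (Bs b β).card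
        · by_contra h2
          refine hc (Or.inr ?_)
          simp only [mem_iUnion]
          refine ⟨β, by rw [hJ, Finset.mem_filter]; exact ⟨Finset.mem_univ _, hβ⟩, ?_⟩
          show (3 + T) * (C₂ * Real.sqrt s) * ((Bs b β).card : ℝ) ^ 2 < dev b β x
          refine lt_of_le_of_lt ?_ (not_le.1 h2)
          have h3 : (3 + T) * (C₂ * Real.sqrt s) * ((Bs b β).card : ℝ) ^ 2 =
              1 * (Real.sqrt s * (A * ((Bs b β).card : ℝ) ^ 2)) := by
            rw [hA]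
            ring
          rw [h3]
          have h4 : 28 * B * Real.sqrt s * (A * ((Bs b β).card : ℝ) ^ 2) =
              28 * B * (Real.sqrt s * (A * ((Bs b β).card : ℝ) ^ 2)) := by ring
          rw [h4]
          exact mul_le_mul_of_nonneg_right (by linarith) (by positivity)
        · rw [dev_small b β (by omega) x]
          positivity
    have hdev : (mu ρ).real (⋃ β ∈ J,
          {x : V (ι × Fin 1) | (3 + T) * (C₂ * Real.sqrt s) * ((Bs b β).card : ℝ) ^ 2 <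
            dev b β x}) ≤ 1 / 8 := by
      refine (measureReal_biUnion_finset_le _ _).trans ?_
      have h3 : ∀ β ∈ J,
          (mu ρ).real {x : V (ι × Fin 1) | (3 + T) * (C₂ * Real.sqrt s) *
            ((Bs b β).card : ℝ) ^ 2 < dev b β x} ≤
            1 / 8 * Real.exp (-(T * (Bs b β).card)) := by
        intro β hβ
        rw [hJ, Finset.mem_filter] at hβ
        have hm2 : (2 : ℝ) ≤ (Bs b β).card := by exact_mod_cast hβ.2
        refine (tailj hT b ρ (gq_gg hρ) hbd h1 s hs hmom β (3 + T) (by linarith)).trans ?_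
        have e1 : -((Bs b β).card * (3 + T)) = -(3 * (Bs b β).card : ℝ) + -(T * (Bs b β).card) := by
          ring
        rw [e1, Real.exp_add]
        refine mul_le_mul_of_nonneg_right ?_ (Real.exp_pos _).le
        have h4 : Real.exp (-(3 * ((Bs b β).card : ℝ))) ≤ Real.exp (-((3 : ℕ) : ℝ)) :=
          Real.exp_le_exp.2 (by push_cast; linarith)
        exact h4.trans ((exp_two 3).trans (le_of_eq (by norm_num)))
      refine (Finset.sum_le_sum h3).trans ?_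
      rw [← Finset.mul_sum]
      linarith
    have hpj := tail_pj hb h hB0 ρ hρ hbd h1 s hs hmom
    have h2 := (measureReal_mono hsub).trans (measureReal_union_le (μ := mu ρ) _ _)
    linarith

end WB

end Pool.Agent.X43.KR
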